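import Pool.Agent.Hhelper71.Stream.Proto

/-!
# The induction on the number of passes
-/

namespace Pool.Agent.Hhelper71.Stream

open Finset

set_option linter.unusedSectionVars false
set_option linter.unusedSimpArgs false

variable {Y M : Type} [Fintype Y] [DecidableEq Y] [Fintype M] [DecidableEq M]
variable {t μ : ℕ → ℕ} [∀ k, NeZero (t k)] [∀ k, NeZero (μ k)]

lemma min_one_add_le {a b : ℝ} (hb : 0 ≤ b) : min 1 (a + b) ≤ min 1 a + b := by
  rcases le_total 1 a with h | h
  · rw [min_eq_left h]
    exact (min_le_left _ _).trans (by linarith)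
  · rw [min_eq_right h]
    exact min_le_right _ _

lemma Pot_nonneg (k : ℕ) (π : Y → Inst t μ k) (ν : ℕ → Y → ℝ) (h : ∀ i, IsDist (ν i)) :
    0 ≤ Pot k π ν :=
  Finset.sum_nonneg fun i _ => D_nonneg _ (h i)

/-- The main inductive bound. -/
theorem claim (k : ℕ) : ∀ (l : List (ℕ × (M → Y → M))) (ν : ℕ → Y → ℝ) (σ : M)
    (π : Y → Inst t μ k), Good k l → (∀ i, IsDist (ν i)) →
    tot (fun ν' _ => Psi k π ν') l ν σ ≤
      cA k * Pot k π ν + cB t μ k * tot (fun ν' _ => Pot k π ν') l ν σ := by
  induction k with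
  | zero =>
    intro l ν σ π hl hν
    simp only [Good] at hl
    subst hl
    simp only [tot, Psi, cA, cB, Pot, zero_mul, add_zero, Finset.range_one,
      Finset.sum_singleton, zero_add]
    have h0 : 0 ≤ D π (ν 0) := D_nonneg _ (hν 0)
    change (if 1 / 60 ≤ D π (ν 0) then (1 : ℝ) else 0) ≤ 60 * D π (ν 0)
    split_ifs with h
    · linarith
    · linarith
  | succ k ih =>
    intro l ν σ π hl hν
    obtain ⟨l1, l2, l3, rfl, hl1, hl2, hl3⟩ := hl
    have hμ : (0 : ℝ) < μ k := by exact_mod_cast Nat.pos_of_ne_zero (NeZero.ne (μ k))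
    have ht : (0 : ℝ) < t k := by exact_mod_cast Nat.pos_of_ne_zero (NeZero.ne (t k))
    set A := cA k with hA
    set B := cB t μ k with hB
    have hA0 : 0 ≤ A := cA_nonneg k
    have hB0 : 0 ≤ B := cB_nonneg k
    -- the potential of the players `0, …, k` measured on the whole instance
    set P : (ℕ → Y → ℝ) → ℝ := fun ν' => ∑ i ∈ Finset.range (k + 1), D π (ν' i) with hP
    have hP0 : ∀ ν', (∀ i, IsDist (ν' i)) → 0 ≤ P ν' := fun ν' h =>
      Finset.sum_nonneg fun i _ => D_nonneg _ (h i)
    have hPupd : ∀ (ν' : ℕ → Y → ℝ) (a : Y → ℝ), P (Function.update ν' (k + 1) a) = P ν' := by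
      intro ν' a
      simp only [hP]
      refine Finset.sum_congr rfl fun i hi => ?_
      rw [Function.update_of_ne (by have := Finset.mem_range.mp hi; omega)]
    -- sum over addresses
    have hsubj : ∀ (ν' : ℕ → Y → ℝ), (∀ i, IsDist (ν' i)) → ∀ j,
        ∑ e, Pot k (fun y => sub j e (π y)) ν' ≤ P ν' := by
      intro ν' h j
      simp only [Pot, hP]
      rw [Finset.sum_comm]
      exact Finset.sum_le_sum fun i _ => D_sub_le' π (h i) j
    have hsub : ∀ (ν' : ℕ → Y → ℝ), (∀ i, IsDist (ν' i)) →
        ∑ j, ∑ e, Pot k (fun y => sub j e (π y)) ν' ≤ P ν' := by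
      intro ν' h
      simp only [Pot, hP]
      have : ∑ j, ∑ e, ∑ i ∈ Finset.range (k + 1), D (fun y => sub j e (π y)) (ν' i) =
          ∑ i ∈ Finset.range (k + 1), ∑ j, ∑ e, D (fun y => sub j e (π y)) (ν' i) :=
        (Finset.sum_congr rfl fun j _ => Finset.sum_comm).trans Finset.sum_comm
      rw [this]
      exact Finset.sum_le_sum fun i _ => D_sub_le π (h i)
    -- after the first part of the first pass
    have hkey : ∀ (ν' : ℕ → Y → ℝ) (σ' : M), (∀ i, IsDist (ν' i)) →
        tot (fun ν'' _ => Psi (k + 1) π ν'') (l2 ++ l3) ν' σ' ≤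
          D π (ν' (k + 1)) + 2 * A / (t k * μ k) * P ν' +
          B / μ k * tot (fun ν'' _ => P ν'') (l2 ++ l3) ν' σ' := by
      intro ν' σ' hν'
      set q : Fin (t k) → ℝ := fun j => mar (fun y => idx (π y)) (ν' (k + 1)) j with hq
      have hq0 : ∀ j, 0 ≤ q j := fun j => mar_nonneg (hν' _).1 _
      set νj : Fin (t k) → ℕ → Y → ℝ := fun j =>
        Function.update ν' (k + 1) (cnd (fun y => idx (π y)) j (ν' (k + 1))) with hνj
      have hνjd : ∀ j, 0 < q j → ∀ i, IsDist (νj j i) := fun j hj =>
        isDist_update hν' (k + 1) _ j hj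
      -- split according to the index
      have hsplit : tot (fun ν'' _ => Psi (k + 1) π ν'') (l2 ++ l3) ν' σ' =
          ∑ j, q j * tot (fun ν'' _ => (1 / (μ k : ℝ)) *
            ∑ e, Psi k (fun y => sub j e (π y)) ν'') (l2 ++ l3) (νj j) σ' := by
        have := tot_split (k + 1) (fun y => idx (π y))
          (fun j ν'' (_ : M) => (1 / (μ k : ℝ)) * ∑ e, Psi k (fun y => sub j e (π y)) ν'')
          (by
            intro j ν'' a σ''
            congr 1
            exact Finset.sum_congr rfl fun e _ => Psi_update k (k + 1) (by omega) a _ _)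
          (l2 ++ l3) ν' σ' hν'
        exact this
      -- the induction hypothesis
      have hIH : ∀ j, 0 < q j → tot (fun ν'' _ => (1 / (μ k : ℝ)) *
            ∑ e, Psi k (fun y => sub j e (π y)) ν'') (l2 ++ l3) (νj j) σ' ≤
          A * ((1 / (μ k : ℝ)) * ∑ e, Pot k (fun y => sub j e (π y)) ν') +
          B * ((1 / (μ k : ℝ)) * tot (fun ν'' _ => P ν'') (l2 ++ l3) (νj j) σ') := by
        intro j hj
        rw [tot_mul, tot_sum]
        have h1 : ∀ e, tot (fun ν'' _ => Psi k (fun y => sub j e (π y)) ν'') (l2 ++ l3)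
            (νj j) σ' ≤ A * Pot k (fun y => sub j e (π y)) ν' +
            B * tot (fun ν'' _ => Pot k (fun y => sub j e (π y)) ν'') (l2 ++ l3) (νj j) σ' := by
          intro e
          rw [tot_append, tot_append]
          have h2 : tot (fun ν'' σ'' => tot (fun ν''' _ =>
                Psi k (fun y => sub j e (π y)) ν''') l3 ν'' σ'') l2 (νj j) σ' ≤
              tot (fun ν'' σ'' => A * Pot k (fun y => sub j e (π y)) ν' + B *
                tot (fun ν''' _ => Pot k (fun y => sub j e (π y)) ν''') l3 ν'' σ'')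
                l2 (νj j) σ' := by
            refine tot_mono l2 _ _ (hνjd j hj) fun ν'' σ'' hν'' hag => ?_
            have h3 := ih l3 ν'' σ'' (fun y => sub j e (π y)) hl3 hν''
            have h4 : Pot k (fun y => sub j e (π y)) ν'' =
                Pot k (fun y => sub j e (π y)) ν' := by
              apply Pot_congr
              intro i hi
              rw [hag i fun s hs => by have := hl2 s hs; omega]
              exact Function.update_of_ne (by omega) _ _
            rw [h4] at h3
            exact h3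
          refine h2.trans (le_of_eq ?_)
          rw [tot_add (fun _ _ => A * Pot k (fun y => sub j e (π y)) ν')
            (fun ν'' σ'' => B * tot (fun ν''' _ => Pot k (fun y => sub j e (π y)) ν''') l3
              ν'' σ'') l2, tot_const _ _ _ _ (hνjd j hj), tot_mul B (fun ν'' σ'' =>
              tot (fun ν''' _ => Pot k (fun y => sub j e (π y)) ν''') l3 ν'' σ'') l2]
        have h5 : ∑ e, tot (fun ν'' _ => Psi k (fun y => sub j e (π y)) ν'') (l2 ++ l3)
            (νj j) σ' ≤ A * ∑ e, Pot k (fun y => sub j e (π y)) ν' +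
            B * tot (fun ν'' _ => P ν'') (l2 ++ l3) (νj j) σ' := by
          refine (Finset.sum_le_sum fun e _ => h1 e).trans ?_
          rw [Finset.sum_add_distrib, ← Finset.mul_sum, ← Finset.mul_sum, ← tot_sum]
          have h6 : tot (fun ν'' _ => ∑ e, Pot k (fun y => sub j e (π y)) ν'') (l2 ++ l3)
              (νj j) σ' ≤ tot (fun ν'' _ => P ν'') (l2 ++ l3) (νj j) σ' :=
            tot_mono _ _ _ (hνjd j hj) fun ν'' _ hν'' _ => hsubj ν'' hν'' j
          have := mul_le_mul_of_nonneg_left h6 hB0
          linarith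
        have h7 := mul_le_mul_of_nonneg_left h5 (by positivity : (0 : ℝ) ≤ 1 / (μ k : ℝ))
        calc _ ≤ _ := h7
          _ = _ := by ring
      have hone : ∀ j, 0 < q j → tot (fun ν'' _ => (1 / (μ k : ℝ)) *
            ∑ e, Psi k (fun y => sub j e (π y)) ν'') (l2 ++ l3) (νj j) σ' ≤ 1 := by
        intro j hj
        have h1 : tot (fun ν'' (_ : M) => (1 / (μ k : ℝ)) *
            ∑ e, Psi k (fun y => sub j e (π y)) ν'') (l2 ++ l3) (νj j) σ' ≤
            tot (fun _ (_ : M) => (1 : ℝ)) (l2 ++ l3) (νj j) σ' := by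
          refine tot_mono _ _ _ (hνjd j hj) fun ν'' _ hν'' _ => ?_
          calc (1 / (μ k : ℝ)) * ∑ e, Psi k (fun y => sub j e (π y)) ν''
              ≤ (1 / (μ k : ℝ)) * ∑ e : Fin (μ k), (1 : ℝ) :=
                mul_le_mul_of_nonneg_left (Finset.sum_le_sum fun e _ => Psi_le_one k _ _ hν'')
                  (by positivity)
            _ = 1 := by simp [hμ.ne']
        rwa [tot_const _ _ _ _ (hνjd j hj)] at h1
      -- abbreviations
      set a : Fin (t k) → ℝ := fun j => (1 / (μ k : ℝ)) *
        ∑ e, Pot k (fun y => sub j e (π y)) ν' with ha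
      set b : Fin (t k) → ℝ := fun j => (1 / (μ k : ℝ)) *
        tot (fun ν'' _ => P ν'') (l2 ++ l3) (νj j) σ' with hb
      have ha0 : ∀ j, 0 ≤ a j := fun j => mul_nonneg (by positivity)
        (Finset.sum_nonneg fun e _ => Pot_nonneg k _ _ hν')
      have hb0 : ∀ j, 0 < q j → 0 ≤ b j := by
        intro j hj
        refine mul_nonneg (by positivity) ?_
        have := tot_mono (G1 := fun _ (_ : M) => (0 : ℝ)) (G2 := fun ν'' _ => P ν'')
          (l2 ++ l3) (νj j) σ' (hνjd j hj) fun ν'' _ hν'' _ => hP0 ν'' hν''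
        rwa [tot_const _ _ _ _ (hνjd j hj)] at this
      have hstep1 : ∑ j, q j * tot (fun ν'' _ => (1 / (μ k : ℝ)) *
            ∑ e, Psi k (fun y => sub j e (π y)) ν'') (l2 ++ l3) (νj j) σ' ≤
          ∑ j, q j * min 1 (A * a j) + B * ∑ j, q j * b j := by
        rw [Finset.mul_sum, ← Finset.sum_add_distrib]
        refine Finset.sum_le_sum fun j _ => ?_
        rcases eq_or_lt_of_le (hq0 j) with h0 | h0
        · rw [← h0]; simp
        · have h1 : tot (fun ν'' _ => (1 / (μ k : ℝ)) *
              ∑ e, Psi k (fun y => sub j e (π y)) ν'') (l2 ++ l3) (νj j) σ' ≤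
              min 1 (A * a j) + B * b j :=
            (le_min (hone j h0) (hIH j h0)).trans
              (min_one_add_le (mul_nonneg hB0 (hb0 j h0)))
          have := mul_le_mul_of_nonneg_left h1 h0.le
          linarith
      -- first term: change of measure
      have hstep2 : ∑ j, q j * min 1 (A * a j) ≤
          D π (ν' (k + 1)) + 2 * A / (t k * μ k) * P ν' := by
        have h1 := D_change (X := Fin (t k)) (fun y => idx (π y)) (hν' (k + 1))
          (fun j => min 1 (A * a j)) (fun j => le_min zero_le_one (mul_nonneg hA0 (ha0 j)))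
          (fun j => min_le_left _ _)
        have h2 := D_idx_le π (hν' (k + 1))
        have h3 : ∑ j, min 1 (A * a j) ≤ A * ((1 / (μ k : ℝ)) * P ν') := by
          calc ∑ j, min 1 (A * a j) ≤ ∑ j, A * a j :=
                Finset.sum_le_sum fun j _ => min_le_right _ _
            _ = A * ((1 / (μ k : ℝ)) * ∑ j, ∑ e, Pot k (fun y => sub j e (π y)) ν') := by
                rw [← Finset.mul_sum]
                simp only [ha]
                rw [← Finset.mul_sum]
            _ ≤ A * ((1 / (μ k : ℝ)) * P ν') := by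
                refine mul_le_mul_of_nonneg_left ?_ hA0
                exact mul_le_mul_of_nonneg_left (hsub ν' hν') (by positivity)
        have h4 : 2 * (∑ j, min 1 (A * a j)) / (Fintype.card (Fin (t k)) : ℝ) ≤
            2 * A / (t k * μ k) * P ν' := by
          rw [Fintype.card_fin]
          calc 2 * (∑ j, min 1 (A * a j)) / (t k : ℝ) ≤
              2 * (A * ((1 / (μ k : ℝ)) * P ν')) / (t k : ℝ) := by gcongr
            _ = 2 * A / (t k * μ k) * P ν' := by field_simp
        calc ∑ j, q j * min 1 (A * a j) ≤ _ := h1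
          _ ≤ _ := by linarith
      -- second term
      have hstep3 : B * ∑ j, q j * b j =
          B / μ k * tot (fun ν'' _ => P ν'') (l2 ++ l3) ν' σ' := by
        have h1 := tot_split (k + 1) (fun y => idx (π y)) (fun _ ν'' (_ : M) => P ν'')
          (fun j ν'' a σ'' => hPupd ν'' a) (l2 ++ l3) ν' σ' hν'
        have h2 : tot (fun ν'' (_ : M) => ∑ j, mar (fun y => idx (π y)) (ν'' (k + 1)) j * P ν'')
            (l2 ++ l3) ν' σ' = tot (fun ν'' _ => P ν'') (l2 ++ l3) ν' σ' := by
          refine tot_congr _ _ _ hν' fun ν'' _ hν'' _ => ?_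
          rw [← Finset.sum_mul, sum_mar, (hν'' _).2, one_mul]
        rw [← h2, h1]
        simp only [hb]
        rw [Finset.mul_sum, Finset.mul_sum]
        refine Finset.sum_congr rfl fun j _ => ?_
        simp only [hq, hνj]
        ring
      rw [hsplit]
      calc _ ≤ _ := hstep1
        _ ≤ _ := by rw [hstep3]; linarith
    -- now average over the first part of the first pass
    rw [tot_append]
    have h1 : tot (fun ν' σ' => tot (fun ν'' _ => Psi (k + 1) π ν'') (l2 ++ l3) ν' σ') l1 ν σ ≤
        tot (fun ν' σ' => D π (ν (k + 1)) + (2 * A / (t k * μ k) + B / μ k) *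
          tot (fun ν'' _ => P ν'') (l2 ++ l3) ν' σ') l1 ν σ := by
      refine tot_mono l1 ν σ hν fun ν' σ' hν' hag => ?_
      have h2 := hkey ν' σ' hν'
      have h3 : ν' (k + 1) = ν (k + 1) := hag (k + 1) fun s hs => by
        have := hl1 s hs; omega
      rw [h3] at h2
      have h4 : P ν' ≤ tot (fun ν'' _ => P ν'') (l2 ++ l3) ν' σ' := by
        simp only [hP]
        rw [tot_sum]
        exact Finset.sum_le_sum fun i _ => tot_D_mono π i _ ν' σ' hν'
      have h5 : 2 * A / (t k * μ k) * P ν' ≤ 2 * A / (t k * μ k) *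
          tot (fun ν'' _ => P ν'') (l2 ++ l3) ν' σ' :=
        mul_le_mul_of_nonneg_left h4 (by positivity)
      linarith
    refine h1.trans ?_
    rw [tot_add (fun _ _ => D π (ν (k + 1))) (fun ν' σ' => (2 * A / (t k * μ k) + B / μ k) *
          tot (fun ν'' _ => P ν'') (l2 ++ l3) ν' σ') l1, tot_mul, tot_const _ _ _ _ hν,
      ← tot_append]
    have h6 : D π (ν (k + 1)) ≤ Pot (k + 1) π ν := by
      unfold Pot
      exact Finset.single_le_sum (f := fun i => D π (ν i))
        (fun i _ => D_nonneg _ (hν i)) (Finset.mem_range.mpr (by omega))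
    have h7 : tot (fun ν'' _ => P ν'') (l1 ++ (l2 ++ l3)) ν σ ≤
        tot (fun ν'' _ => Pot (k + 1) π ν'') (l1 ++ (l2 ++ l3)) ν σ := by
      refine tot_mono _ _ _ hν fun ν' _ hν' _ => ?_
      simp only [hP, Pot]
      rw [Finset.sum_range_succ _ (k + 1)]
      have := D_nonneg π (hν' (k + 1))
      linarith
    have h8 : 0 ≤ 2 * A / (t k * μ k) + B / μ k := by positivity
    have h9 := mul_le_mul_of_nonneg_left h7 h8
    have h10 : cA (k + 1) = 1 := rfl
    have h11 : cB t μ (k + 1) = 2 * A / (t k * μ k) + B / μ k := rfl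
    rw [h10, h11, one_mul]
    linarith

/-- Bound on `cB` when the numbers `t i` are large. -/
lemma cB_le (k : ℕ) (L : ℝ) (hL : 0 < L)
    (ht : ∀ i < k, L * ∏ l ∈ Finset.range i, (μ l : ℝ) ≤ t i) :
    cB t μ k ≤ 120 * k / (L * ∏ l ∈ Finset.range k, (μ l : ℝ)) := by
  induction k with
  | zero => simp [cB]
  | succ k ih =>
    have h1 := ih fun i hi => ht i (by omega)
    have hμ : (0 : ℝ) < μ k := by exact_mod_cast Nat.pos_of_ne_zero (NeZero.ne (μ k))
    have hprod : (0 : ℝ) < ∏ l ∈ Finset.range k, (μ l : ℝ) :=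
      Finset.prod_pos fun l _ => by exact_mod_cast Nat.pos_of_ne_zero (NeZero.ne (μ l))
    have h2 := ht k (by omega)
    have h3 : cA k ≤ 60 := by cases k <;> norm_num [cA]
    unfold cB
    rw [Finset.prod_range_succ]
    set ρ := ∏ l ∈ Finset.range k, (μ l : ℝ) with hρ
    have ht0 : (0 : ℝ) < t k := lt_of_lt_of_le (by positivity) h2
    have h4 : 2 * cA k / (t k * μ k) ≤ 120 / (L * (ρ * μ k)) := by
      rw [div_le_div_iff₀ (by positivity) (by positivity)]
      have h5 : 2 * cA k * (L * (ρ * μ k)) ≤ 120 * (L * (ρ * μ k)) := by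
        apply mul_le_mul_of_nonneg_right (by linarith) (by positivity)
      have h6 : 120 * (L * (ρ * μ k)) ≤ 120 * (t k * μ k) := by
        have := mul_le_mul_of_nonneg_right h2 hμ.le
        nlinarith
      linarith
    have h5 : cB t μ k / μ k ≤ 120 * k / (L * (ρ * μ k)) := by
      calc cB t μ k / μ k ≤ (120 * k / (L * ρ)) / μ k := by gcongr
        _ = 120 * k / (L * (ρ * μ k)) := by rw [div_div]; ring_nf
    calc _ ≤ 120 / (L * (ρ * μ k)) + 120 * k / (L * (ρ * μ k)) := add_le_add h4 h5
      _ = _ := by push_cast; ring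

end Pool.Agent.Hhelper71.Stream
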