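import Pool.Agent.Hhelper71.Stream.Graph

/-!
# The communication lower bound
-/

namespace Pool.Agent.Hhelper71.Stream

open Finset

set_option linter.unusedSectionVars false
set_option linter.unusedSimpArgs false

variable {Y M : Type} [Fintype Y] [DecidableEq Y] [Fintype M] [DecidableEq M]
variable {t μ N : ℕ → ℕ} [∀ k, NeZero (t k)] [∀ k, NeZero (μ k)]
variable (R : ∀ k, RS (t k) (μ k) (N k))

lemma frac_congr (k : ℕ) : ∀ (z z' : ℕ → Inst t μ k) (S : Finset (Vx μ N k × Vx μ N k)),
    (∀ i ≤ k, z i = z' i) → frac R k z S = frac R k z' S := by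
  induction k with
  | zero => intro z z' S _; rfl
  | succ k ih =>
    intro z z' S h
    unfold frac
    rw [h (k + 1) le_rfl]
    congr 1
    refine Finset.sum_congr rfl fun e _ => ih _ _ _ fun i hi => ?_
    rw [h i (by omega)]

/-- The relevant bits whose gadget meets `S` have positive deficiency. -/
def Hyp (ν : ℕ → Y → ℝ) : (k : ℕ) → (Y → Inst t μ k) → Finset (Vx μ N k × Vx μ N k) → Prop
  | 0, π, S => S.Nonempty → 1 / 60 ≤ D (X := Bool) π (ν 0)
  | k + 1, π, S => ∀ j e, Hyp ν k (fun y => sub j e (π y)) (restr R j e S)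

lemma ext_update {K : ℕ} (y : Fin (K + 1) → Y) (k : ℕ) (hk : k ≤ K) (a : Y) (i : ℕ)
    (hi : i < k) : ext (Function.update y (Fin.ofNat (K + 1) k) a) i = ext y i := by
  unfold ext
  rw [Function.update_of_ne]
  intro h
  have := congrArg Fin.val h
  simp only [Fin.ofNat] at this
  rw [Nat.mod_eq_of_lt (by omega), Nat.mod_eq_of_lt (by omega)] at this
  omega

lemma val_ofNat {K k : ℕ} (hk : k ≤ K) : ((Fin.ofNat (K + 1) k : Fin (K + 1)) : ℕ) = k := by
  simp only [Fin.ofNat]
  exact Nat.mod_eq_of_lt (by omega)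

lemma frac_le_Psi {K : ℕ} {ν : ℕ → Y → ℝ} (hν : ∀ i, IsDist (ν i)) (k : ℕ) (hk : k ≤ K) :
    ∀ (π : Y → Inst t μ k) (S : Finset (Vx μ N k × Vx μ N k)), Hyp R ν k π S →
      Ex (K := K) ν (fun y => frac R k (fun i => π (ext y i)) S) ≤ Psi k π ν := by
  induction k with
  | zero =>
    intro π S hH
    simp only [frac, Psi]
    by_cases h : S.Nonempty
    · simp only [h, if_true]
      rw [Ex_one hν]
      have := hH h
      change 1 ≤ if 1 / 60 ≤ D (X := Bool) π (ν 0) then (1 : ℝ) else 0
      rw [if_pos this]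
    · simp only [h, if_false]
      have : Ex (K := K) ν (fun _ => (0 : ℝ)) = 0 := by simp [Ex]
      rw [this]
      split_ifs <;> norm_num
  | succ k ih =>
    intro π S hH
    have h1 : ∀ y : Fin (K + 1) → Y, frac R (k + 1) (fun i => π (ext y i)) S =
        ∑ j : Fin (t k), (if idx (π (y (Fin.ofNat (K + 1) (k + 1)))) = j then (1 : ℝ) else 0) *
          ((1 / (μ k : ℝ)) * ∑ e, frac R k (fun i => sub j e (π (ext y i)))
            (restr R j e S)) := by
      intro y
      simp only [ite_mul, one_mul, zero_mul]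
      rw [Finset.sum_ite_eq]
      simp only [Finset.mem_univ, if_true]
      rfl
    simp_rw [h1]
    rw [Ex_sum]
    unfold Psi
    refine Finset.sum_le_sum fun j _ => ?_
    have h2 := Ex_indep hν (Fin.ofNat (K + 1) (k + 1))
      (fun a => if idx (π a) = j then (1 : ℝ) else 0)
      (fun y => (1 / (μ k : ℝ)) * ∑ e, frac R k (fun i => sub j e (π (ext y i)))
            (restr R j e S))
      (by
        intro y a
        congr 1
        refine Finset.sum_congr rfl fun e _ => frac_congr R k _ _ _ fun i hi => ?_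
        rw [ext_update y (k + 1) hk a i (by omega)])
    rw [h2, val_ofNat hk]
    have h3 : ∑ a, ν (k + 1) a * (if idx (π a) = j then (1 : ℝ) else 0) =
        mar (fun y => idx (π y)) (ν (k + 1)) j := by
      unfold mar
      refine Finset.sum_congr rfl fun a _ => ?_
      simp
    rw [h3, Ex_mul, Ex_sum]
    refine mul_le_mul_of_nonneg_left ?_ (mar_nonneg (hν _).1 _)
    refine mul_le_mul_of_nonneg_left ?_ (by positivity)
    exact Finset.sum_le_sum fun e _ => ih (by omega) _ _ (hH j e)

lemma Hyp_of_success {K : ℕ} {ν : ℕ → Y → ℝ} (hν : ∀ i, IsDist (ν i))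
    (Suc : (Fin (K + 1) → Y) → Prop) [DecidablePred Suc]
    (hp : 3 / 5 ≤ Ex ν (fun y => if Suc y then 1 else 0)) (k : ℕ) :
    ∀ (π : Y → Inst t μ k) (S : Finset (Vx μ N k × Vx μ N k)),
      (∀ y, Suc y → ∀ p ∈ S, ∃ i, Ed R i k (π (ext y i)) p.1 p.2) → Hyp R ν k π S := by
  induction k with
  | zero =>
    intro π S h hS
    obtain ⟨p, hpS⟩ := hS
    refine D_bit π (hν 0) (xor (show Bool from p.1) (show Bool from p.2)) (hp.trans ?_)
    have h1 : Ex (K := K) ν (fun y => if Suc y then (1 : ℝ) else 0) ≤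
        Ex (K := K) ν (fun y => (if (show Bool from π (y 0)) =
          xor (show Bool from p.1) (show Bool from p.2) then (1 : ℝ) else 0) * 1) := by
      refine Ex_mono hν fun y => ?_
      by_cases hy : Suc y
      · rw [if_pos hy]
        obtain ⟨i, hi0, hi⟩ := h y hy p hpS
        subst hi0
        have e0 : ext y 0 = y 0 := rfl
        rw [e0] at hi
        have : ∀ a b z : Bool, b = xor a z → z = xor a b := by decide
        rw [if_pos (this _ _ _ hi)]
        norm_num
      · rw [if_neg hy]
        split_ifs <;> norm_num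
    refine h1.trans (le_of_eq ?_)
    have h2 := Ex_indep hν (0 : Fin (K + 1)) (fun a => if (show Bool from π a) =
          xor (show Bool from p.1) (show Bool from p.2) then (1 : ℝ) else 0)
      (fun _ => 1) (fun _ _ => rfl)
    rw [h2, Ex_one hν, mul_one]
    unfold mar
    refine Finset.sum_congr rfl fun a _ => ?_
    simp
  | succ k ih =>
    intro π S h j e
    refine ih _ _ fun y hy p hp' => ?_
    obtain ⟨-, hp'⟩ := Finset.mem_filter.mp hp'
    obtain ⟨i, hi⟩ := h y hy _ hp'
    exact ⟨i, Ed_sub R hi⟩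

/-- The communication lower bound: a protocol with the message set `M` which finds an almost
perfect matching with probability at least `13/20` over uniform inputs must be long. -/
theorem comm_bound [Nonempty M] {K : ℕ} (l : List (ℕ × (M → Inst t μ K → M))) (hl : Good K l)
    (hlK : ∀ s ∈ l, s.1 < K + 1) (σ₀ : M) (out : M → Finset (Vx μ N K × Vx μ N K))
    (Suc : (Fin (K + 1) → Inst t μ K) → M → Prop) [∀ y σ, Decidable (Suc y σ)]
    (hSuc : ∀ y σ, Suc y σ → IsMat (out σ) ∧
      (∀ p ∈ out σ, ∃ i, Ed R i K (ext y i) p.1 p.2) ∧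
      (Fintype.card (Vx μ N K) : ℝ) ≤ (out σ).card +
        (1 / 2) * ∏ l ∈ Finset.range K, (μ l : ℝ))
    (hp : 13 / 20 ≤ Ex (K := K) (fun _ _ => 1 / (Fintype.card (Inst t μ K) : ℝ))
      (fun y => if Suc y (run l σ₀ y) then 1 else 0)) :
    3 / 80 ≤ cB t μ K * (l.length * Real.log (Fintype.card M)) := by
  set ν : ℕ → Inst t μ K → ℝ := fun _ _ => 1 / (Fintype.card (Inst t μ K) : ℝ) with hνdef
  have hν : ∀ i, IsDist (ν i) := fun i => isDist_uniform
  have hρ : (0 : ℝ) < ∏ l ∈ Finset.range K, (μ l : ℝ) :=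
    Finset.prod_pos fun l _ => by exact_mod_cast Nat.pos_of_ne_zero (NeZero.ne (μ l))
  have hleaf : ∀ (ν' : ℕ → Inst t μ K → ℝ) (σ' : M), (∀ i, IsDist (ν' i)) →
      3 / 4 * Ex (K := K) ν' (fun y => if Suc y σ' then 1 else 0) + (-(9 / 20)) ≤
        Psi K (fun y : Inst t μ K => y) ν' := by
    intro ν' σ' hν'
    set p := Ex (K := K) ν' (fun y => if Suc y σ' then (1 : ℝ) else 0) with hpdef
    by_cases h : 3 / 5 ≤ p
    · have hH : Hyp R ν' K (fun y : Inst t μ K => y) (out σ') :=
        Hyp_of_success R hν' (fun y => Suc y σ') h K _ _ fun y hy => (hSuc y σ' hy).2.1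
      have h1 := frac_le_Psi R hν' K le_rfl _ _ hH
      have h2 : 3 / 4 * p ≤ Ex (K := K) ν' (fun y => frac R K (fun i => ext y i) (out σ')) := by
        rw [hpdef, ← Ex_mul]
        refine Ex_mono hν' fun y => ?_
        split_ifs with hy
        · obtain ⟨hm, he, hc⟩ := hSuc y σ' hy
          have h3 := card_le_frac R K (fun i => ext y i) (out σ') hm he
          have h4 : 3 / 4 * (2 * ∏ l ∈ Finset.range K, (μ l : ℝ)) ≤
              frac R K (fun i => ext y i) (out σ') * (2 * ∏ l ∈ Finset.range K, (μ l : ℝ)) := by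
            linarith
          have := le_of_mul_le_mul_right h4 (by positivity)
          linarith
        · simp only [mul_zero]
          have : ∀ (k : ℕ) (z : ℕ → Inst t μ k) (S : Finset (Vx μ N k × Vx μ N k)),
              0 ≤ frac R k z S := by
            intro k
            induction k with
            | zero => intro z S; unfold frac; split_ifs <;> norm_num
            | succ k ih =>
              intro z S
              unfold frac
              exact mul_nonneg (by positivity) (Finset.sum_nonneg fun e _ => ih _ _)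
          exact this _ _ _
      linarith
    · have := Psi_nonneg K (fun y : Inst t μ K => y) ν' hν'
      push Not at h
      linarith
  have h1 := tot_mono l ν σ₀ hν fun ν' σ' hν' _ => hleaf ν' σ' hν'
  rw [tot_add (fun ν' σ' => 3 / 4 * Ex (K := K) ν' (fun y => if Suc y σ' then 1 else 0))
    (fun _ _ => -(9 / 20)) l ν σ₀, tot_const _ _ _ _ hν, tot_mul,
    tot_Ex (fun y σ' => if Suc y σ' then (1 : ℝ) else 0) l ν σ₀ hν hlK] at h1
  have h2 := claim K l ν σ₀ (fun y : Inst t μ K => y) hl hν
  have h3 : Pot K (fun y : Inst t μ K => y) ν = 0 := by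
    unfold Pot
    refine Finset.sum_eq_zero fun i _ => ?_
    exact D_uniform
  have h4 := tot_D_le (fun y : Inst t μ K => y) (Finset.range (K + 1)) l ν σ₀ hν
  have h5 : ∑ i ∈ Finset.range (K + 1), D (fun y : Inst t μ K => y) (ν i) = 0 := h3
  rw [h5, zero_add] at h4
  have h6 := mul_le_mul_of_nonneg_left h4 (cB_nonneg (t := t) (μ := μ) K)
  rw [h3, mul_zero, zero_add] at h2
  have h7 : tot (fun ν' _ => Pot K (fun y : Inst t μ K => y) ν') l ν σ₀ =
    tot (fun ν' _ => ∑ i ∈ Finset.range (K + 1), D (fun y : Inst t μ K => y) (ν' i)) l ν σ₀ :=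
    rfl
  rw [h7] at h2
  linarith

end Pool.Agent.Hhelper71.Stream
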