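import Pool.Agent.Hhelper71.Stream.Joint

/-!
# The hard bipartite graphs
-/

namespace Pool.Agent.Hhelper71.Stream

open Finset

set_option linter.unusedSectionVars false
set_option linter.unusedSimpArgs false

/-- A Ruzsa–Szemerédi system: `t` matchings with `μ` edges each between two copies of `Fin N`,
each of which is induced in the union of all of them. -/
structure RS (t μ N : ℕ) where
  /-- left endpoints -/
  left : Fin t → Fin μ → Fin N
  /-- right endpoints -/
  right : Fin t → Fin μ → Fin N
  left_inj : ∀ j, Function.Injective (left j)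
  right_inj : ∀ j, Function.Injective (right j)
  ind : ∀ j j' e' e₁ e₂, left j' e' = left j e₁ → right j' e' = right j e₂ → j' = j

variable {t μ N : ℕ → ℕ}

/-- One side of the bipartite graph of level `k`. -/
def Vx (μ N : ℕ → ℕ) : ℕ → Type
  | 0 => Bool
  | k + 1 => (Fin (N k) ⊕ Fin (N k - μ k)) × Vx μ N k

noncomputable instance instFintypeVx : ∀ k, Fintype (Vx μ N k)
  | 0 => inferInstanceAs (Fintype Bool)
  | k + 1 =>
    haveI := instFintypeVx k
    inferInstanceAs (Fintype ((Fin (N k) ⊕ Fin (N k - μ k)) × Vx μ N k))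

instance instDecEqVx : ∀ k, DecidableEq (Vx μ N k)
  | 0 => inferInstanceAs (DecidableEq Bool)
  | k + 1 =>
    haveI := instDecEqVx k
    inferInstanceAs (DecidableEq ((Fin (N k) ⊕ Fin (N k - μ k)) × Vx μ N k))

/-- A numbering of the vertices not covered by an injective family. -/
noncomputable def freeEquiv {μ N : ℕ} (f : Fin μ → Fin N) (hf : Function.Injective f) :
    {u : Fin N // u ∉ Set.range f} ≃ Fin (N - μ) := by
  classical
  refine Fintype.equivFinOfCardEq ?_
  rw [Fintype.card_subtype_compl, Fintype.card_fin]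
  congr 1
  have : Fintype.card {x // x ∈ Set.range f} = Fintype.card (Fin μ) :=
    (Fintype.card_congr (Equiv.ofInjective f hf)).symm
  rw [this, Fintype.card_fin]

/-- The reveal relation between clusters. -/
def Rev {μ N : ℕ} {t : ℕ} (R : RS t μ N) (j : Fin t) (u v : Fin N ⊕ Fin (N - μ)) : Prop :=
  (∃ u₀ : {u : Fin N // u ∉ Set.range (R.left j)}, u = Sum.inl u₀.1 ∧
      v = Sum.inr (freeEquiv (R.left j) (R.left_inj j) u₀)) ∨
  (∃ v₀ : {v : Fin N // v ∉ Set.range (R.right j)}, v = Sum.inl v₀.1 ∧
      u = Sum.inr (freeEquiv (R.right j) (R.right_inj j) v₀))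

/-- The edges contributed by player `i` holding the instance `z`. -/
def Ed (R : ∀ k, RS (t k) (μ k) (N k)) (i : ℕ) :
    (k : ℕ) → Inst t μ k → Vx μ N k → Vx μ N k → Prop
  | 0, z, a, b => i = 0 ∧ (show Bool from b) = xor (show Bool from a) (show Bool from z)
  | k + 1, z, a, b =>
      (∃ j e, a.1 = Sum.inl ((R k).left j e) ∧ b.1 = Sum.inl ((R k).right j e) ∧
        Ed R i k (sub j e z) a.2 b.2) ∨
      (i = k + 1 ∧ a.2 = b.2 ∧ Rev (R k) (idx z) a.1 b.1)

variable (R : ∀ k, RS (t k) (μ k) (N k))

/-- Edges inside the cluster pair of `(j, e)` come from the sub-instance `(j, e)`. -/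
lemma Ed_sub {i k : ℕ} {z : Inst t μ (k + 1)} {j : Fin (t k)} {e : Fin (μ k)}
    {a b : Vx μ N k}
    (h : Ed R i (k + 1) z (Sum.inl ((R k).left j e), a) (Sum.inl ((R k).right j e), b)) :
    Ed R i k (sub j e z) a b := by
  rcases h with ⟨j', e', h1, h2, h3⟩ | ⟨-, -, h⟩
  · have h1' := Sum.inl.inj h1
    have h2' := Sum.inl.inj h2
    have hj : j' = j := (R k).ind j j' e' e e h1'.symm h2'.symm
    subst hj
    have he : e' = e := (R k).left_inj _ h1'.symm
    subst he
    exact h3
  · rcases h with ⟨u₀, -, h⟩ | ⟨v₀, -, h⟩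
    · exact absurd h (by simp)
    · exact absurd h (by simp)

/-- Edges of different players are different. -/
lemma Ed_player {i i' : ℕ} (k : ℕ) : ∀ {z z' : Inst t μ k} {a b : Vx μ N k},
    Ed R i k z a b → Ed R i' k z' a b → i = i' := by
  induction k with
  | zero => intro z z' a b h h'; rw [h.1, h'.1]
  | succ k ih =>
    intro z z' a b h h'
    rcases h with ⟨j, e, h1, h2, h3⟩ | ⟨hi, -, h⟩
    · have h'' : Ed R i' (k + 1) z' (Sum.inl ((R k).left j e), a.2)
          (Sum.inl ((R k).right j e), b.2) := by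
        rw [← h1, ← h2]; exact h'
      exact ih h3 (Ed_sub R h'')
    · rcases h' with ⟨j, e, h1, h2, -⟩ | ⟨hi', -, -⟩
      · rcases h with ⟨u₀, -, h⟩ | ⟨v₀, -, h⟩
        · rw [h2] at h; exact absurd h (by simp)
        · rw [h1] at h; exact absurd h (by simp)
      · rw [hi, hi']

lemma Ed_zero_level {i k : ℕ} : ∀ {z : Inst t μ k} {a b : Vx μ N k}, Ed R i k z a b → i ≤ k := by
  induction k with
  | zero => intro z a b h; exact h.1.le
  | succ k ih =>
    intro z a b h
    rcases h with ⟨j, e, -, -, h3⟩ | ⟨hi, -, -⟩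
    · exact (ih h3).trans (by omega)
    · exact hi.le

lemma mu_le_N {t μ N : ℕ} (R : RS t μ N) (j : Fin t) : μ ≤ N := by
  have := Fintype.card_le_of_injective _ (R.left_inj j)
  simpa using this

/-- The graph of any instance has a perfect matching. -/
lemma exists_perfect (k : ℕ) : ∀ z : ℕ → Inst t μ k,
    ∃ f : Vx μ N k → Vx μ N k, Function.Injective f ∧
      ∀ a, ∃ i ≤ k, Ed R i k (z i) a (f a) := by
  induction k with
  | zero =>
    intro z
    refine ⟨fun a => xor (show Bool from a) (show Bool from z 0), ?_, fun a => ⟨0, le_rfl, rfl, rfl⟩⟩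
    intro a b hab
    have : ∀ x y w : Bool, xor x w = xor y w → x = y := by decide
    exact this _ _ _ hab
  | succ k ih =>
    intro z
    classical
    set j := idx (z (k + 1)) with hj
    choose g hg1 hg2 using fun e : Fin (μ k) => ih (fun i => sub j e (z i))
    set F : Vx μ N (k + 1) → Vx μ N (k + 1) := fun a =>
      match a with
      | (Sum.inl u, a') =>
        if h : ∃ e, (R k).left j e = u then (Sum.inl ((R k).right j h.choose), g h.choose a')
        else (Sum.inr (freeEquiv ((R k).left j) ((R k).left_inj j) ⟨u, h⟩), a')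
      | (Sum.inr w, a') =>
        (Sum.inl ((freeEquiv ((R k).right j) ((R k).right_inj j)).symm w).1, a') with hF
    have hF1 : ∀ e a', F (Sum.inl ((R k).left j e), a') =
        (Sum.inl ((R k).right j e), g e a') := by
      intro e a'
      have h : ∃ e', (R k).left j e' = (R k).left j e := ⟨e, rfl⟩
      have he : h.choose = e := (R k).left_inj j h.choose_spec
      simp only [hF]
      rw [dif_pos h, he]
    have hF2 : ∀ (u : {u : Fin (N k) // u ∉ Set.range ((R k).left j)}) a',
        F (Sum.inl u.1, a') =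
          (Sum.inr (freeEquiv ((R k).left j) ((R k).left_inj j) u), a') := by
      intro u a'
      have h : ¬ ∃ e', (R k).left j e' = u.1 := u.2
      simp only [hF]
      rw [dif_neg h]
    have hF3 : ∀ w a', F (Sum.inr w, a') =
        (Sum.inl ((freeEquiv ((R k).right j) ((R k).right_inj j)).symm w).1, a') := by
      intro w a'
      simp only [hF]
    have hcase : ∀ a : Vx μ N (k + 1), (∃ e a', a = (Sum.inl ((R k).left j e), a')) ∨
        (∃ (u : {u : Fin (N k) // u ∉ Set.range ((R k).left j)}) (a' : Vx μ N k),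
          a = (Sum.inl u.1, a')) ∨ (∃ w a', a = (Sum.inr w, a')) := by
      rintro ⟨u | w, a'⟩
      · by_cases h : u ∈ Set.range ((R k).left j)
        · obtain ⟨e, rfl⟩ := h
          exact Or.inl ⟨e, a', rfl⟩
        · exact Or.inr (Or.inl ⟨⟨u, h⟩, a', rfl⟩)
      · exact Or.inr (Or.inr ⟨w, a', rfl⟩)
    refine ⟨F, ?_, ?_⟩
    · intro a b hab
      rcases hcase a with ⟨e, a', rfl⟩ | ⟨u, a', rfl⟩ | ⟨w, a', rfl⟩ <;>
      rcases hcase b with ⟨e', b', rfl⟩ | ⟨u', b', rfl⟩ | ⟨w', b', rfl⟩ <;>
      simp only [hF1, hF2, hF3] at hab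
      · have h1 := (R k).right_inj j (Sum.inl.inj (congrArg Prod.fst hab))
        subst h1
        have h2 : g e a' = g e b' := congrArg Prod.snd hab
        rw [hg1 e h2]
      · exact absurd (congrArg Prod.fst hab) (by simp)
      · have h1 := Sum.inl.inj (congrArg Prod.fst hab)
        exact absurd ⟨e, h1⟩ ((freeEquiv ((R k).right j) ((R k).right_inj j)).symm w').2
      · exact absurd (congrArg Prod.fst hab) (by simp)
      · have h1 := (freeEquiv ((R k).left j) ((R k).left_inj j)).injective
          (Sum.inr.inj (congrArg Prod.fst hab))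
        have h2 : a' = b' := congrArg Prod.snd hab
        rw [h1, h2]
      · exact absurd (congrArg Prod.fst hab) (by simp)
      · have h1 := Sum.inl.inj (congrArg Prod.fst hab)
        exact absurd ⟨e', h1.symm⟩ ((freeEquiv ((R k).right j) ((R k).right_inj j)).symm w).2
      · exact absurd (congrArg Prod.fst hab) (by simp)
      · have h1 := (freeEquiv ((R k).right j) ((R k).right_inj j)).symm.injective
          (Subtype.ext (Sum.inl.inj (congrArg Prod.fst hab)))
        have h2 : a' = b' := congrArg Prod.snd hab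
        rw [h1, h2]
    · intro a
      rcases hcase a with ⟨e, a', rfl⟩ | ⟨u, a', rfl⟩ | ⟨w, a', rfl⟩
      · obtain ⟨i, hi, h⟩ := hg2 e a'
        refine ⟨i, by omega, Or.inl ⟨j, e, rfl, ?_, ?_⟩⟩
        · rw [hF1]
        · rw [hF1]; exact h
      · refine ⟨k + 1, le_rfl, Or.inr ⟨rfl, ?_, ?_⟩⟩
        · rw [hF2]
        · rw [hF2]; exact Or.inl ⟨u, rfl, rfl⟩
      · refine ⟨k + 1, le_rfl, Or.inr ⟨rfl, ?_, ?_⟩⟩
        · rw [hF3]
        · rw [hF3]
          exact Or.inr ⟨(freeEquiv ((R k).right j) ((R k).right_inj j)).symm w, rfl,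
            congrArg Sum.inr (Equiv.apply_symm_apply _ _).symm⟩

/-! ### Matchings and the relevant gadgets -/

/-- The part of a set of pairs inside the cluster pair of `(j, e)`. -/
noncomputable def restr {k : ℕ} (j : Fin (t k)) (e : Fin (μ k))
    (S : Finset (Vx μ N (k + 1) × Vx μ N (k + 1))) : Finset (Vx μ N k × Vx μ N k) :=
  Finset.univ.filter fun p =>
    (((Sum.inl ((R k).left j e), p.1) : Vx μ N (k + 1)),
      ((Sum.inl ((R k).right j e), p.2) : Vx μ N (k + 1))) ∈ S

/-- The fraction of the relevant gadgets in which `S` has an edge. -/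
noncomputable def frac : (k : ℕ) → (ℕ → Inst t μ k) → Finset (Vx μ N k × Vx μ N k) → ℝ
  | 0, _, S => if S.Nonempty then 1 else 0
  | k + 1, z, S => (1 / (μ k : ℝ)) * ∑ e, frac k (fun i => sub (idx (z (k + 1))) e (z i))
      (restr R (idx (z (k + 1))) e S)

/-- A set of pairs is a matching. -/
def IsMat {k : ℕ} (S : Finset (Vx μ N k × Vx μ N k)) : Prop :=
  ∀ p ∈ S, ∀ q ∈ S, (p.1 = q.1 ∨ p.2 = q.2) → p = q

lemma card_Vx_succ (k : ℕ) : Fintype.card (Vx μ N (k + 1)) =
    (N k + (N k - μ k)) * Fintype.card (Vx μ N k) := by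
  have : Fintype.card (Vx μ N (k + 1)) =
    Fintype.card ((Fin (N k) ⊕ Fin (N k - μ k)) × Vx μ N k) := rfl
  rw [this, Fintype.card_prod, Fintype.card_sum, Fintype.card_fin, Fintype.card_fin]

lemma IsMat_restr {k : ℕ} (j : Fin (t k)) (e : Fin (μ k))
    {S : Finset (Vx μ N (k + 1) × Vx μ N (k + 1))} (h : IsMat S) : IsMat (restr R j e S) := by
  intro p hp q hq hpq
  simp only [restr, Finset.mem_filter, Finset.mem_univ, true_and] at hp hq
  have := h _ hp _ hq (by
    rcases hpq with h1 | h1
    · left; rw [h1]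
    · right; rw [h1])
  have h1 := congrArg (fun x : Vx μ N (k + 1) × Vx μ N (k + 1) => x.1.2) this
  have h2 := congrArg (fun x : Vx μ N (k + 1) × Vx μ N (k + 1) => x.2.2) this
  exact Prod.ext h1 h2

/-- A matching in the graph of an instance that is almost perfect must contain edges in most of
the relevant gadgets. -/
lemma card_le_frac [∀ k, NeZero (μ k)] (k : ℕ) : ∀ (z : ℕ → Inst t μ k)
    (S : Finset (Vx μ N k × Vx μ N k)), IsMat S →
    (∀ p ∈ S, ∃ i, Ed R i k (z i) p.1 p.2) →
    (S.card : ℝ) + 2 * ∏ l ∈ Finset.range k, (μ l : ℝ) ≤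
      Fintype.card (Vx μ N k) + 2 * (∏ l ∈ Finset.range k, (μ l : ℝ)) * frac R k z S := by
  induction k with
  | zero =>
    intro z S hS hE
    have hc : (Fintype.card (Vx μ N 0) : ℝ) = 2 := by
      have : Fintype.card (Vx μ N 0) = Fintype.card Bool := rfl
      rw [this]; norm_num
    simp only [Finset.range_zero, Finset.prod_empty, mul_one, frac]
    rw [hc]
    split_ifs with h
    · have hinj : S.card ≤ Fintype.card Bool := by
        rw [← Finset.card_univ (α := Bool)]
        refine Finset.card_le_card_of_injOn (fun p => (show Bool from p.1)) (fun _ _ =>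
          Finset.mem_univ _) ?_
        intro p hp q hq hpq
        exact hS p hp q hq (Or.inl hpq)
      have : (S.card : ℝ) ≤ 2 := by exact_mod_cast hinj
      linarith
    · rw [Finset.not_nonempty_iff_eq_empty] at h
      rw [h]; simp
  | succ k ih =>
    intro z S hS hE
    set j := idx (z (k + 1)) with hj
    have hμN : μ k ≤ N k := mu_le_N (R k) j
    have hμ : (0 : ℝ) < μ k := by exact_mod_cast Nat.pos_of_ne_zero (NeZero.ne (μ k))
    classical
    -- the two kinds of uncovered edges
    set SA := S.filter fun p => ∃ u : {u : Fin (N k) // u ∉ Set.range ((R k).left j)},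
      p.1.1 = Sum.inl u.1 with hSA
    set SB := S.filter fun p => ∃ v : {v : Fin (N k) // v ∉ Set.range ((R k).right j)},
      p.2.1 = Sum.inl v.1 with hSB
    set SC : Fin (μ k) → Finset (Vx μ N (k + 1) × Vx μ N (k + 1)) := fun e =>
      S.filter fun p => p.1.1 = Sum.inl ((R k).left j e) ∧
        p.2.1 = Sum.inl ((R k).right j e) with hSC
    have hcover : S ⊆ (SA ∪ SB) ∪ Finset.univ.biUnion SC := by
      intro p hp
      simp only [Finset.mem_union, Finset.mem_biUnion, Finset.mem_univ, true_and, hSA, hSB,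
        hSC, Finset.mem_filter]
      obtain ⟨i, hi⟩ := hE p hp
      rcases hi with ⟨j', e', h1, h2, -⟩ | ⟨hik, -, h⟩
      · by_cases hl : (R k).left j' e' ∈ Set.range ((R k).left j)
        · by_cases hr : (R k).right j' e' ∈ Set.range ((R k).right j)
          · obtain ⟨e₁, he₁⟩ := hl
            obtain ⟨e₂, he₂⟩ := hr
            have hjj : j' = j := (R k).ind j j' e' e₁ e₂ he₁.symm he₂.symm
            rw [hjj] at h1 h2
            exact Or.inr ⟨e', hp, h1, h2⟩
          · exact Or.inl (Or.inr ⟨hp, ⟨_, hr⟩, h2⟩)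
        · exact Or.inl (Or.inl ⟨hp, ⟨_, hl⟩, h1⟩)
      · rw [hik] at h
        rcases h with ⟨u₀, h, -⟩ | ⟨v₀, h, -⟩
        · exact Or.inl (Or.inl ⟨hp, u₀, h⟩)
        · exact Or.inl (Or.inr ⟨hp, v₀, h⟩)
    have hgen : ∀ (f : Fin (μ k) → Fin (N k)) (hf : Function.Injective f),
        (Finset.univ.image fun x : {u : Fin (N k) // u ∉ Set.range f} × Vx μ N k =>
          ((Sum.inl x.1.1, x.2) : Vx μ N (k + 1))).card ≤
          (N k - μ k) * Fintype.card (Vx μ N k) := by
      intro f hf
      refine Finset.card_image_le.trans (le_of_eq ?_)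
      rw [Finset.card_univ, Fintype.card_prod, Fintype.card_congr (freeEquiv f hf),
          Fintype.card_fin]
    have hcA : SA.card ≤ (N k - μ k) * Fintype.card (Vx μ N k) := by
      refine le_trans ?_ (hgen _ ((R k).left_inj j))
      refine Finset.card_le_card_of_injOn (fun p => p.1) ?_ ?_
      · intro p hp
        obtain ⟨-, u, hu⟩ := Finset.mem_filter.mp hp
        exact Finset.mem_image.mpr ⟨(u, p.1.2), Finset.mem_univ _, Prod.ext hu.symm rfl⟩
      · intro p hp q hq hpq
        exact hS p (Finset.mem_filter.mp hp).1 q (Finset.mem_filter.mp hq).1 (Or.inl hpq)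
    have hcB : SB.card ≤ (N k - μ k) * Fintype.card (Vx μ N k) := by
      refine le_trans ?_ (hgen _ ((R k).right_inj j))
      refine Finset.card_le_card_of_injOn (fun p => p.2) ?_ ?_
      · intro p hp
        obtain ⟨-, u, hu⟩ := Finset.mem_filter.mp hp
        exact Finset.mem_image.mpr ⟨(u, p.2.2), Finset.mem_univ _, Prod.ext hu.symm rfl⟩
      · intro p hp q hq hpq
        exact hS p (Finset.mem_filter.mp hp).1 q (Finset.mem_filter.mp hq).1 (Or.inr hpq)
    have hcC : ∀ e, (SC e).card = (restr R j e S).card := by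
      intro e
      refine Finset.card_bij (fun p _ => (p.1.2, p.2.2)) ?_ ?_ ?_
      · intro p hp
        obtain ⟨hpS, h1, h2⟩ := Finset.mem_filter.mp hp
        refine Finset.mem_filter.mpr ⟨Finset.mem_univ _, ?_⟩
        rw [← h1, ← h2]
        exact hpS
      · intro p hp q hq hpq
        obtain ⟨hpS, h1, h2⟩ := Finset.mem_filter.mp hp
        obtain ⟨hqS, h3, h4⟩ := Finset.mem_filter.mp hq
        have h5 : p.1.2 = q.1.2 := congrArg (fun x : Vx μ N k × Vx μ N k => x.1) hpq
        have h6 : p.2.2 = q.2.2 := congrArg (fun x : Vx μ N k × Vx μ N k => x.2) hpq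
        exact Prod.ext (Prod.ext (h1.trans h3.symm) h5) (Prod.ext (h2.trans h4.symm) h6)
      · intro q hq
        obtain ⟨-, hq⟩ := Finset.mem_filter.mp hq
        exact ⟨_, Finset.mem_filter.mpr ⟨hq, rfl, rfl⟩, rfl⟩
    have hIH : ∀ e, ((restr R j e S).card : ℝ) + 2 * ∏ l ∈ Finset.range k, (μ l : ℝ) ≤
        Fintype.card (Vx μ N k) + 2 * (∏ l ∈ Finset.range k, (μ l : ℝ)) *
          frac R k (fun i => sub j e (z i)) (restr R j e S) := by
      intro e
      refine ih _ _ (IsMat_restr R j e hS) ?_
      intro p hp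
      obtain ⟨-, hp⟩ := Finset.mem_filter.mp hp
      obtain ⟨i, hi⟩ := hE _ hp
      exact ⟨i, Ed_sub R hi⟩
    have hcard : (S.card : ℝ) ≤ 2 * ((N k - μ k : ℕ) * Fintype.card (Vx μ N k) : ℝ) +
        ∑ e, ((restr R j e S).card : ℝ) := by
      have h1 : S.card ≤ SA.card + SB.card + ∑ e, (SC e).card :=
        (Finset.card_le_card hcover).trans ((Finset.card_union_le _ _).trans
          (add_le_add (Finset.card_union_le _ _) Finset.card_biUnion_le))
      have h2 : (S.card : ℝ) ≤ SA.card + SB.card + ∑ e, ((SC e).card : ℝ) := by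
        exact_mod_cast h1
      have h3 : (SA.card : ℝ) ≤ ((N k - μ k : ℕ) * Fintype.card (Vx μ N k) : ℝ) := by
        exact_mod_cast hcA
      have h4 : (SB.card : ℝ) ≤ ((N k - μ k : ℕ) * Fintype.card (Vx μ N k) : ℝ) := by
        exact_mod_cast hcB
      have h5 : ∑ e, ((SC e).card : ℝ) = ∑ e, ((restr R j e S).card : ℝ) :=
        Finset.sum_congr rfl fun e _ => by rw [hcC e]
      linarith
    have hsum := Finset.sum_le_sum fun e (_ : e ∈ Finset.univ) => hIH e
    rw [Finset.sum_add_distrib, Finset.sum_add_distrib, Finset.sum_const, Finset.sum_const,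
      Finset.card_univ, Fintype.card_fin, nsmul_eq_mul, nsmul_eq_mul, ← Finset.mul_sum] at hsum
    have hfr : frac R (k + 1) z S = (1 / (μ k : ℝ)) *
        ∑ e, frac R k (fun i => sub j e (z i)) (restr R j e S) := rfl
    rw [hfr, card_Vx_succ, Finset.prod_range_succ]
    have hNμ : ((N k - μ k : ℕ) : ℝ) = N k - μ k := Nat.cast_sub hμN
    rw [hNμ] at hcard
    push_cast
    rw [hNμ]
    have h6 : 2 * ((∏ l ∈ Finset.range k, (μ l : ℝ)) * μ k) * (1 / (μ k : ℝ) *
        ∑ e, frac R k (fun i => sub j e (z i)) (restr R j e S)) =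
        2 * (∏ l ∈ Finset.range k, (μ l : ℝ)) *
        ∑ e, frac R k (fun i => sub j e (z i)) (restr R j e S) := by
      field_simp
    rw [h6]
    linarith

end Pool.Agent.Hhelper71.Stream
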