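import Mathlib

/-!
# Entropy deficiency of finite distributions

For a weight function `ν : Y → ℝ` and a map `π : Y → X` into a finite type, `D π ν` is the
relative entropy (in nats) of the law of `π` under `ν` with respect to the uniform law on `X`.
-/

namespace Pool.Agent.Hhelper71.Stream

open Finset

set_option linter.unusedSectionVars false
set_option linter.unusedSimpArgs false

variable {Y X M : Type} [Fintype Y] [DecidableEq Y]

/-- `ν` is a probability vector. -/
def IsDist (ν : Y → ℝ) : Prop := (∀ y, 0 ≤ ν y) ∧ ∑ y, ν y = 1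

/-- The law of `π` under `ν`. -/
noncomputable def mar [DecidableEq X] (π : Y → X) (ν : Y → ℝ) (x : X) : ℝ :=
  ∑ y, if π y = x then ν y else 0

/-- Conditioning `ν` on the event `f = m`. -/
noncomputable def cnd [DecidableEq M] (f : Y → M) (m : M) (ν : Y → ℝ) : Y → ℝ :=
  fun y => if f y = m then ν y / mar f ν m else 0

/-- Entropy deficiency of the law of `π` under `ν`. -/
noncomputable def D [Fintype X] [DecidableEq X] (π : Y → X) (ν : Y → ℝ) : ℝ :=
  ∑ x, mar π ν x * Real.log (mar π ν x * Fintype.card X)

lemma mar_nonneg [DecidableEq X] {π : Y → X} {ν : Y → ℝ} (h : ∀ y, 0 ≤ ν y) (x : X) :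
    0 ≤ mar π ν x :=
  Finset.sum_nonneg fun y _ => by split_ifs <;> [exact h y; exact le_rfl]

lemma sum_mar [Fintype X] [DecidableEq X] (π : Y → X) (ν : Y → ℝ) :
    ∑ x, mar π ν x = ∑ y, ν y := by
  unfold mar
  rw [Finset.sum_comm]
  refine Finset.sum_congr rfl fun y _ => ?_
  simp

lemma sum_mar_mul [Fintype X] [DecidableEq X] (π : Y → X) (ν : Y → ℝ) (v : X → ℝ) :
    ∑ x, mar π ν x * v x = ∑ y, ν y * v (π y) := by
  unfold mar
  simp_rw [Finset.sum_mul]
  rw [Finset.sum_comm]
  refine Finset.sum_congr rfl fun y _ => ?_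
  simp [ite_mul]

lemma mar_comp [Fintype X] [DecidableEq X] {X' : Type} [DecidableEq X'] (π : Y → X)
    (g : X → X') (ν : Y → ℝ) (x' : X') :
    mar (fun y => g (π y)) ν x' = ∑ x, if g x = x' then mar π ν x else 0 := by
  unfold mar
  have : ∀ x : X, (if g x = x' then ∑ y, (if π y = x then ν y else 0) else 0) =
      ∑ y, (if π y = x then (if g x = x' then ν y else 0) else 0) := by
    intro x
    split_ifs with h
    · rfl
    · simp
  simp_rw [this]
  rw [Finset.sum_comm]
  refine Finset.sum_congr rfl fun y _ => ?_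
  simp

lemma le_mar [DecidableEq X] {π : Y → X} {ν : Y → ℝ} (h : ∀ y, 0 ≤ ν y) (y : Y) :
    ν y ≤ mar π ν (π y) := by
  unfold mar
  have := Finset.single_le_sum (f := fun y' => if π y' = π y then ν y' else 0)
    (fun y' _ => by split_ifs <;> [exact h y'; exact le_rfl]) (Finset.mem_univ y)
  simpa using this

lemma mar_le_one [DecidableEq X] {π : Y → X} {ν : Y → ℝ} (h : IsDist ν) (x : X) :
    mar π ν x ≤ 1 := by
  unfold mar
  rw [← h.2]
  exact Finset.sum_le_sum fun y _ => by split_ifs <;> [exact le_rfl; exact h.1 y]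

lemma cnd_isDist [DecidableEq M] {f : Y → M} {m : M} {ν : Y → ℝ} (h : ∀ y, 0 ≤ ν y)
    (hm : 0 < mar f ν m) : IsDist (cnd f m ν) := by
  refine ⟨fun y => ?_, ?_⟩
  · unfold cnd
    split_ifs
    · exact div_nonneg (h y) hm.le
    · exact le_rfl
  · unfold cnd
    have : ∀ y, (if f y = m then ν y / mar f ν m else 0) =
        (if f y = m then ν y else 0) / mar f ν m := by
      intro y; split_ifs <;> simp
    simp_rw [this]
    rw [← Finset.sum_div]
    exact div_self hm.ne'

/-- Joint law: `mar f ν m * mar π (cnd f m ν) x` is the joint law. -/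
lemma mar_mul_mar_cnd [DecidableEq X] [DecidableEq M] (π : Y → X) (f : Y → M) {ν : Y → ℝ}
    (h : ∀ y, 0 ≤ ν y) (m : M) (x : X) :
    mar f ν m * mar π (cnd f m ν) x = ∑ y, if f y = m ∧ π y = x then ν y else 0 := by
  rcases eq_or_lt_of_le (mar_nonneg (π := f) h m) with h0 | h0
  · rw [← h0, zero_mul]
    symm
    apply Finset.sum_eq_zero
    intro y _
    split_ifs with hy
    · have := le_mar (π := f) h y
      rw [hy.1, ← h0] at this
      exact le_antisymm this (h y)
    · rfl
  · have key : ∀ y, mar f ν m * (if π y = x then cnd f m ν y else 0) =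
        if f y = m ∧ π y = x then ν y else 0 := by
      intro y
      by_cases h1 : π y = x <;> by_cases h2 : f y = m <;> simp [h1, h2, cnd]
      exact mul_div_cancel₀ _ h0.ne'
    have h3 : mar π (cnd f m ν) x = ∑ y, if π y = x then cnd f m ν y else 0 := rfl
    rw [h3, Finset.mul_sum]
    exact Finset.sum_congr rfl fun y _ => key y

lemma sum_joint [Fintype M] [DecidableEq X] [DecidableEq M] (π : Y → X) (f : Y → M)
    (ν : Y → ℝ) (x : X) :
    ∑ m, (∑ y, if f y = m ∧ π y = x then ν y else 0) = mar π ν x := by
  rw [Finset.sum_comm]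
  unfold mar
  refine Finset.sum_congr rfl fun y _ => ?_
  by_cases h1 : π y = x <;> simp [h1]

/-- The per-term inequality behind the variational formula. -/
lemma term_ineq {q v c : ℝ} (hq : 0 ≤ q) (hc : 0 < c) :
    q * v ≤ q * Real.log (q * c) + Real.exp v / c - q := by
  rcases eq_or_lt_of_le hq with h | h
  · rw [← h]; simp; positivity
  · have h1 : Real.log (Real.exp v / (q * c)) ≤ Real.exp v / (q * c) - 1 :=
      Real.log_le_sub_one_of_pos (by positivity)
    rw [Real.log_div (Real.exp_pos v).ne' (by positivity), Real.log_exp] at h1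
    have h2 := mul_le_mul_of_nonneg_left h1 hq
    have h3 : q * (Real.exp v / (q * c) - 1) = Real.exp v / c - q := by
      field_simp
    linarith

/-- Variational inequality. -/
lemma D_variational [Fintype X] [DecidableEq X] [Nonempty X] (π : Y → X) {ν : Y → ℝ}
    (h : IsDist ν) (v : X → ℝ) :
    ∑ x, mar π ν x * v x ≤ D π ν + (∑ x, Real.exp (v x)) / Fintype.card X - 1 := by
  have hc : (0 : ℝ) < Fintype.card X := by exact_mod_cast Fintype.card_pos
  have h1 : ∑ x, mar π ν x * v x ≤ ∑ x, (mar π ν x * Real.log (mar π ν x * Fintype.card X) +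
      Real.exp (v x) / Fintype.card X - mar π ν x) :=
    Finset.sum_le_sum fun x _ => term_ineq (mar_nonneg h.1 x) hc
  rw [Finset.sum_sub_distrib, Finset.sum_add_distrib, sum_mar, h.2, ← Finset.sum_div] at h1
  exact h1

lemma D_nonneg [Fintype X] [DecidableEq X] [Nonempty X] (π : Y → X) {ν : Y → ℝ}
    (h : IsDist ν) : 0 ≤ D π ν := by
  have := D_variational π h (fun _ => 0)
  have hc : (Fintype.card X : ℝ) ≠ 0 := by exact_mod_cast Fintype.card_ne_zero
  simp [hc] at this
  exact this

lemma exp_le_one_add {v : ℝ} (h0 : 0 ≤ v) (h1 : v ≤ 1) : Real.exp v ≤ 1 + 2 * v := by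
  have hconv := convexOn_exp.2 (Set.mem_univ (0 : ℝ)) (Set.mem_univ (1 : ℝ))
    (sub_nonneg.mpr h1) h0 (by ring)
  simp only [smul_eq_mul, mul_zero, mul_one, zero_add, Real.exp_zero] at hconv
  have he : Real.exp 1 < 3 := lt_trans Real.exp_one_lt_d9 (by norm_num)
  nlinarith

/-- Change of measure from `ν` to the uniform law for functions with values in `[0,1]`. -/
lemma D_change [Fintype X] [DecidableEq X] [Nonempty X] (π : Y → X) {ν : Y → ℝ}
    (h : IsDist ν) (v : X → ℝ) (h0 : ∀ x, 0 ≤ v x) (h1 : ∀ x, v x ≤ 1) :
    ∑ x, mar π ν x * v x ≤ D π ν + 2 * (∑ x, v x) / Fintype.card X := by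
  have h2 := D_variational π h v
  have hc : (0 : ℝ) < Fintype.card X := by exact_mod_cast Fintype.card_pos
  have h3 : (∑ x, Real.exp (v x)) / Fintype.card X ≤
      1 + 2 * (∑ x, v x) / Fintype.card X := by
    rw [div_le_iff₀ hc, add_mul, one_mul, div_mul_cancel₀ _ hc.ne']
    calc ∑ x, Real.exp (v x) ≤ ∑ x, (1 + 2 * v x) :=
          Finset.sum_le_sum fun x _ => exp_le_one_add (h0 x) (h1 x)
      _ = Fintype.card X + 2 * ∑ x, v x := by
          rw [Finset.sum_add_distrib, Finset.mul_sum]; simp
  linarith

/-- Deficiency of a uniform law under the identity. -/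
lemma D_uniform [Nonempty Y] : D (fun y : Y => y) (fun _ => 1 / (Fintype.card Y : ℝ)) = 0 := by
  unfold D mar
  have hc : (Fintype.card Y : ℝ) ≠ 0 := by exact_mod_cast Fintype.card_ne_zero
  simp [hc]

lemma isDist_uniform [Nonempty Y] : IsDist (fun _ : Y => 1 / (Fintype.card Y : ℝ)) := by
  refine ⟨fun _ => by positivity, ?_⟩
  have hc : (Fintype.card Y : ℝ) ≠ 0 := by exact_mod_cast Fintype.card_ne_zero
  simp [hc]

/-- Sending a message increases the expected deficiency by at most the log of the number of
messages. -/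
lemma D_message_le [Fintype X] [DecidableEq X] [Nonempty X] [Fintype M] [DecidableEq M]
    [Nonempty M] (π : Y → X) (f : Y → M) {ν : Y → ℝ} (h : IsDist ν) :
    ∑ m, mar f ν m * D π (cnd f m ν) ≤ D π ν + Real.log (Fintype.card M) := by
  have hcX : (0 : ℝ) < Fintype.card X := by exact_mod_cast Fintype.card_pos
  have hcM : (0 : ℝ) < Fintype.card M := by exact_mod_cast Fintype.card_pos
  set r : M → X → ℝ := fun m x => ∑ y, if f y = m ∧ π y = x then ν y else 0 with hr
  have hr0 : ∀ m x, 0 ≤ r m x := fun m x => Finset.sum_nonneg fun y _ => by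
    split_ifs <;> [exact h.1 y; exact le_rfl]
  have hrx : ∀ x, ∑ m, r m x = mar π ν x := fun x => sum_joint π f ν x
  have hrle : ∀ m x, r m x ≤ mar π ν x := by
    intro m x
    rw [← hrx x]
    exact Finset.single_le_sum (f := fun m => r m x) (fun m _ => hr0 m x) (Finset.mem_univ m)
  have hterm : ∀ m x, mar f ν m * (mar π (cnd f m ν) x *
      Real.log (mar π (cnd f m ν) x * Fintype.card X)) ≤
      r m x * Real.log (mar π ν x * Fintype.card X) - r m x * Real.log (mar f ν m) := by
    intro m x
    rw [← mul_assoc, mar_mul_mar_cnd π f h.1 m x]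
    change r m x * _ ≤ _
    rcases eq_or_lt_of_le (hr0 m x) with h0 | h0
    · rw [← h0]; simp
    · have hx : 0 < mar π ν x := lt_of_lt_of_le h0 (hrle m x)
      have hm : 0 < mar f ν m := by
        rcases eq_or_lt_of_le (mar_nonneg (π := f) h.1 m) with h1 | h1
        · have := mar_mul_mar_cnd π f h.1 m x
          rw [← h1, zero_mul] at this
          exact absurd this h0.ne
        · exact h1
      have hq : mar π (cnd f m ν) x = r m x / mar f ν m := by
        rw [eq_div_iff hm.ne', mul_comm, mar_mul_mar_cnd π f h.1 m x]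
      have hlog : Real.log (mar π (cnd f m ν) x * Fintype.card X) ≤
          Real.log (mar π ν x * Fintype.card X) - Real.log (mar f ν m) := by
        rw [← Real.log_div (by positivity) hm.ne', hq]
        apply Real.log_le_log (by positivity)
        rw [div_mul_eq_mul_div]
        gcongr
        exact hrle m x
      nlinarith
  have hsum : ∑ m, mar f ν m * D π (cnd f m ν) ≤
      ∑ m, ∑ x, (r m x * Real.log (mar π ν x * Fintype.card X) -
        r m x * Real.log (mar f ν m)) := by
    refine Finset.sum_le_sum fun m _ => ?_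
    unfold D
    rw [Finset.mul_sum]
    exact Finset.sum_le_sum fun x _ => hterm m x
  have h1 : ∑ m, ∑ x, r m x * Real.log (mar π ν x * Fintype.card X) = D π ν := by
    rw [Finset.sum_comm]
    unfold D
    refine Finset.sum_congr rfl fun x _ => ?_
    rw [← Finset.sum_mul, hrx]
  have hrm : ∀ m, ∑ x, r m x = mar f ν m := by
    intro m
    have := sum_joint (X := M) f π ν m
    rw [← this]
    refine Finset.sum_congr rfl fun x _ => ?_
    refine Finset.sum_congr rfl fun y _ => ?_
    simp [and_comm]
  have h2 : ∑ m, ∑ x, r m x * Real.log (mar f ν m) =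
      D f ν - Real.log (Fintype.card M) := by
    unfold D
    have : ∀ m, ∑ x, r m x * Real.log (mar f ν m) =
        mar f ν m * Real.log (mar f ν m * Fintype.card M) -
          mar f ν m * Real.log (Fintype.card M) := by
      intro m
      rw [← Finset.sum_mul, hrm]
      rcases eq_or_lt_of_le (mar_nonneg (π := f) h.1 m) with h0 | h0
      · rw [← h0]; simp
      · rw [Real.log_mul h0.ne' hcM.ne']; ring
    simp_rw [this]
    rw [Finset.sum_sub_distrib, ← Finset.sum_mul, sum_mar, h.2, one_mul]
  have h3 : ∑ m, ∑ x, (r m x * Real.log (mar π ν x * Fintype.card X) -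
        r m x * Real.log (mar f ν m)) =
      D π ν - (D f ν - Real.log (Fintype.card M)) := by
    rw [← h1, ← h2, ← Finset.sum_sub_distrib]
    refine Finset.sum_congr rfl fun m _ => ?_
    rw [Finset.sum_sub_distrib]
  have h4 := D_nonneg f h
  linarith

/-- Sending a message does not decrease the expected deficiency. -/
lemma D_le_message [Fintype X] [DecidableEq X] [Nonempty X] [Fintype M] [DecidableEq M]
    (π : Y → X) (f : Y → M) {ν : Y → ℝ} (h : IsDist ν) :
    D π ν ≤ ∑ m, mar f ν m * D π (cnd f m ν) := by
  have hcX : (0 : ℝ) < Fintype.card X := by exact_mod_cast Fintype.card_pos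
  set r : M → X → ℝ := fun m x => ∑ y, if f y = m ∧ π y = x then ν y else 0 with hr
  have hr0 : ∀ m x, 0 ≤ r m x := fun m x => Finset.sum_nonneg fun y _ => by
    split_ifs <;> [exact h.1 y; exact le_rfl]
  have hrx : ∀ x, ∑ m, r m x = mar π ν x := fun x => sum_joint π f ν x
  have hrm : ∀ m, ∑ x, r m x = mar f ν m := by
    intro m
    have := sum_joint (X := M) f π ν m
    rw [← this]
    refine Finset.sum_congr rfl fun x _ => ?_
    refine Finset.sum_congr rfl fun y _ => ?_
    simp [and_comm]
  have hterm : ∀ m x, r m x * Real.log (mar π ν x * Fintype.card X) + r m x -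
      mar f ν m * mar π ν x ≤ mar f ν m * (mar π (cnd f m ν) x *
      Real.log (mar π (cnd f m ν) x * Fintype.card X)) := by
    intro m x
    rw [← mul_assoc, mar_mul_mar_cnd π f h.1 m x]
    change _ ≤ r m x * _
    rcases eq_or_lt_of_le (hr0 m x) with h0 | h0
    · rw [← h0]
      have := mul_nonneg (mar_nonneg (π := f) h.1 m) (mar_nonneg (π := π) h.1 x)
      simp; exact this
    · have hx : 0 < mar π ν x := lt_of_lt_of_le h0 (by
        rw [← hrx x]
        exact Finset.single_le_sum (f := fun m => r m x) (fun m _ => hr0 m x)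
          (Finset.mem_univ m))
      have hm : 0 < mar f ν m := lt_of_lt_of_le h0 (by
        rw [← hrm m]
        exact Finset.single_le_sum (f := fun x => r m x) (fun x _ => hr0 m x)
          (Finset.mem_univ x))
      have hq : mar π (cnd f m ν) x = r m x / mar f ν m := by
        rw [eq_div_iff hm.ne', mul_comm, mar_mul_mar_cnd π f h.1 m x]
      have hlog : Real.log (mar f ν m * mar π ν x / r m x) ≤
          mar f ν m * mar π ν x / r m x - 1 :=
        Real.log_le_sub_one_of_pos (by positivity)
      have hl2 : Real.log (mar π (cnd f m ν) x * Fintype.card X) =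
          Real.log (mar π ν x * Fintype.card X) -
            Real.log (mar f ν m * mar π ν x / r m x) := by
        rw [← Real.log_div (by positivity) (by positivity), hq]
        congr 1
        field_simp
      rw [hl2]
      have h5 := mul_le_mul_of_nonneg_left hlog h0.le
      have h6 : r m x * (mar f ν m * mar π ν x / r m x - 1) =
          mar f ν m * mar π ν x - r m x := by
        field_simp
      nlinarith
  have hsum : ∑ m, ∑ x, (r m x * Real.log (mar π ν x * Fintype.card X) + r m x -
      mar f ν m * mar π ν x) ≤ ∑ m, mar f ν m * D π (cnd f m ν) := by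
    refine Finset.sum_le_sum fun m _ => ?_
    unfold D
    rw [Finset.mul_sum]
    exact Finset.sum_le_sum fun x _ => hterm m x
  refine le_trans (le_of_eq ?_) hsum
  have h1 : ∑ m, ∑ x, r m x * Real.log (mar π ν x * Fintype.card X) = D π ν := by
    rw [Finset.sum_comm]
    unfold D
    refine Finset.sum_congr rfl fun x _ => ?_
    rw [← Finset.sum_mul, hrx]
  have h2 : ∑ m, ∑ x, r m x = 1 := by
    simp_rw [hrm]; rw [sum_mar, h.2]
  have h3 : ∑ m, ∑ x, mar f ν m * mar π ν x = 1 := by
    simp_rw [← Finset.mul_sum]
    rw [← Finset.sum_mul, sum_mar, sum_mar, h.2, one_mul]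
  simp_rw [Finset.sum_sub_distrib, Finset.sum_add_distrib]
  rw [h1, h2, h3]; ring

/-- Superadditivity of the deficiency for a family of components. -/
lemma D_superadd {J : Type} [Fintype J] [DecidableEq J] [Fintype X] [DecidableEq X]
    [Nonempty X] (π : Y → J → X) {ν : Y → ℝ} (h : IsDist ν) :
    ∑ j, D (fun y => π y j) ν ≤ D π ν := by
  have hcX : (0 : ℝ) < Fintype.card X := by exact_mod_cast Fintype.card_pos
  have hmarj : ∀ (x : J → X) (j : J), mar π ν x ≤ mar (fun y => π y j) ν (x j) := by
    intro x j
    unfold mar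
    refine Finset.sum_le_sum fun y _ => ?_
    by_cases hy : π y = x
    · simp [hy]
    · simp only [hy, if_false]
      split_ifs <;> [exact h.1 y; exact le_rfl]
  -- rewrite the left side as an expectation under the joint law
  have hleft : ∑ j, D (fun y => π y j) ν =
      ∑ x : J → X, mar π ν x * ∑ j, Real.log (mar (fun y => π y j) ν (x j) *
        Fintype.card X) := by
    have h1 : ∀ j, D (fun y => π y j) ν = ∑ x : J → X, mar π ν x *
        Real.log (mar (fun y => π y j) ν (x j) * Fintype.card X) := by
      intro j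
      unfold D
      rw [sum_mar_mul, sum_mar_mul]
    simp_rw [h1]
    rw [Finset.sum_comm]
    refine Finset.sum_congr rfl fun x _ => ?_
    rw [Finset.mul_sum]
  rw [hleft]
  unfold D
  have hterm : ∀ x : J → X, mar π ν x * ∑ j, Real.log (mar (fun y => π y j) ν (x j) *
        Fintype.card X) + mar π ν x - ∏ j, mar (fun y => π y j) ν (x j) ≤
      mar π ν x * Real.log (mar π ν x * Fintype.card (J → X)) := by
    intro x
    rcases eq_or_lt_of_le (mar_nonneg (π := π) h.1 x) with h0 | h0
    · rw [← h0]
      have : 0 ≤ ∏ j, mar (fun y => π y j) ν (x j) :=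
        Finset.prod_nonneg fun j _ => mar_nonneg h.1 _
      simp; exact this
    · have hj : ∀ j, 0 < mar (fun y => π y j) ν (x j) := fun j => lt_of_lt_of_le h0 (hmarj x j)
      have hprod : 0 < ∏ j, mar (fun y => π y j) ν (x j) := Finset.prod_pos fun j _ => hj j
      have hlog : Real.log ((∏ j, mar (fun y => π y j) ν (x j)) / mar π ν x) ≤
          (∏ j, mar (fun y => π y j) ν (x j)) / mar π ν x - 1 :=
        Real.log_le_sub_one_of_pos (by positivity)
      have hl2 : ∑ j, Real.log (mar (fun y => π y j) ν (x j) * Fintype.card X) =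
          Real.log (mar π ν x * Fintype.card (J → X)) +
            Real.log ((∏ j, mar (fun y => π y j) ν (x j)) / mar π ν x) := by
        rw [← Real.log_mul (by positivity) (by positivity),
          ← Real.log_prod (fun j _ => (mul_pos (hj j) hcX).ne')]
        congr 1
        rw [Finset.prod_mul_distrib]
        simp only [Finset.prod_const, Finset.card_univ, Fintype.card_pi, Nat.cast_pow,
          Nat.cast_prod]
        field_simp
      rw [hl2]
      have h5 := mul_le_mul_of_nonneg_left hlog h0.le
      have h6 : mar π ν x * ((∏ j, mar (fun y => π y j) ν (x j)) / mar π ν x - 1) =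
          (∏ j, mar (fun y => π y j) ν (x j)) - mar π ν x := by
        field_simp
      nlinarith
  have hsum := Finset.sum_le_sum fun (x : J → X) (_ : x ∈ Finset.univ) => hterm x
  rw [Finset.sum_sub_distrib, Finset.sum_add_distrib, sum_mar, h.2] at hsum
  have hprod1 : ∑ x : J → X, ∏ j, mar (fun y => π y j) ν (x j) = 1 := by
    have := (Finset.prod_univ_sum (fun _ : J => (Finset.univ : Finset X))
      (fun j x => mar (fun y => π y j) ν x))
    rw [Fintype.piFinset_univ] at this
    rw [← this]
    apply Finset.prod_eq_one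
    intro j _
    rw [sum_mar, h.2]
  rw [hprod1] at hsum
  linarith

/-- Superadditivity of the deficiency for a pair. -/
lemma D_pair {X' : Type} [Fintype X] [DecidableEq X] [Nonempty X] [Fintype X']
    [DecidableEq X'] [Nonempty X'] (π : Y → X × X') {ν : Y → ℝ} (h : IsDist ν) :
    D (fun y => (π y).1) ν + D (fun y => (π y).2) ν ≤ D π ν := by
  have hcX : (0 : ℝ) < Fintype.card X := by exact_mod_cast Fintype.card_pos
  have hcX' : (0 : ℝ) < Fintype.card X' := by exact_mod_cast Fintype.card_pos
  have hmar1 : ∀ x : X × X', mar π ν x ≤ mar (fun y => (π y).1) ν x.1 := by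
    intro x
    unfold mar
    refine Finset.sum_le_sum fun y _ => ?_
    by_cases hy : π y = x
    · simp [hy]
    · simp only [hy, if_false]
      split_ifs <;> [exact h.1 y; exact le_rfl]
  have hmar2 : ∀ x : X × X', mar π ν x ≤ mar (fun y => (π y).2) ν x.2 := by
    intro x
    unfold mar
    refine Finset.sum_le_sum fun y _ => ?_
    by_cases hy : π y = x
    · simp [hy]
    · simp only [hy, if_false]
      split_ifs <;> [exact h.1 y; exact le_rfl]
  have h1 : D (fun y => (π y).1) ν = ∑ x : X × X', mar π ν x *
      Real.log (mar (fun y => (π y).1) ν x.1 * Fintype.card X) := by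
    unfold D
    rw [sum_mar_mul, sum_mar_mul]
  have h2 : D (fun y => (π y).2) ν = ∑ x : X × X', mar π ν x *
      Real.log (mar (fun y => (π y).2) ν x.2 * Fintype.card X') := by
    unfold D
    rw [sum_mar_mul, sum_mar_mul]
  rw [h1, h2]
  have hterm : ∀ x : X × X', mar π ν x *
        Real.log (mar (fun y => (π y).1) ν x.1 * Fintype.card X) +
      mar π ν x * Real.log (mar (fun y => (π y).2) ν x.2 * Fintype.card X') + mar π ν x -
      mar (fun y => (π y).1) ν x.1 * mar (fun y => (π y).2) ν x.2 ≤
      mar π ν x * Real.log (mar π ν x * Fintype.card (X × X')) := by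
    intro x
    rcases eq_or_lt_of_le (mar_nonneg (π := π) h.1 x) with h0 | h0
    · rw [← h0]
      have : 0 ≤ mar (fun y => (π y).1) ν x.1 * mar (fun y => (π y).2) ν x.2 :=
        mul_nonneg (mar_nonneg h.1 _) (mar_nonneg h.1 _)
      simp; exact this
    · have hj1 := lt_of_lt_of_le h0 (hmar1 x)
      have hj2 := lt_of_lt_of_le h0 (hmar2 x)
      set a := mar (fun y => (π y).1) ν x.1
      set b := mar (fun y => (π y).2) ν x.2
      have hlog : Real.log (a * b / mar π ν x) ≤ a * b / mar π ν x - 1 :=
        Real.log_le_sub_one_of_pos (by positivity)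
      have hl2 : Real.log (a * Fintype.card X) + Real.log (b * Fintype.card X') =
          Real.log (mar π ν x * Fintype.card (X × X')) + Real.log (a * b / mar π ν x) := by
        rw [← Real.log_mul (by positivity) (by positivity),
          ← Real.log_mul (by positivity) (by positivity)]
        congr 1
        simp only [Fintype.card_prod, Nat.cast_mul]
        field_simp
      have h5 := mul_le_mul_of_nonneg_left hlog h0.le
      have h6 : mar π ν x * (a * b / mar π ν x - 1) = a * b - mar π ν x := by
        field_simp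
      nlinarith
  have hsum := Finset.sum_le_sum fun (x : X × X') (_ : x ∈ Finset.univ) => hterm x
  rw [Finset.sum_sub_distrib, Finset.sum_add_distrib, Finset.sum_add_distrib, sum_mar,
    h.2] at hsum
  have hprod1 : ∑ x : X × X', mar (fun y => (π y).1) ν x.1 * mar (fun y => (π y).2) ν x.2
      = 1 := by
    rw [Fintype.sum_prod_type]
    simp_rw [← Finset.mul_sum]
    rw [← Finset.sum_mul, sum_mar, sum_mar, h.2, one_mul]
  rw [hprod1] at hsum
  unfold D
  linarith

/-- A biased bit has positive deficiency. -/
lemma D_bit (π : Y → Bool) {ν : Y → ℝ} (h : IsDist ν) (b : Bool)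
    (hb : 3 / 5 ≤ mar π ν b) : 1 / 60 ≤ D π ν := by
  have h1 := D_variational π h (fun x => if x = b then Real.log (6 / 5) else Real.log (4 / 5))
  have hsum : mar π ν b + mar π ν (!b) = 1 := by
    have := sum_mar π ν
    rw [h.2, Fintype.sum_bool] at this
    cases b <;> simp <;> linarith
  have h2 : ∑ x, mar π ν x * (if x = b then Real.log (6 / 5) else Real.log (4 / 5)) =
      mar π ν b * Real.log (6 / 5) + mar π ν (!b) * Real.log (4 / 5) := by
    rw [Fintype.sum_bool]
    cases b <;> simp [add_comm]
  have h3 : (∑ x : Bool, Real.exp (if x = b then Real.log (6 / 5) else Real.log (4 / 5))) /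
      Fintype.card Bool = 1 := by
    rw [Fintype.sum_bool]
    cases b <;> simp <;> rw [Real.exp_log (by norm_num), Real.exp_log (by norm_num)] <;>
      norm_num
  rw [h2, h3] at h1
  have hl : Real.log (4 / 5) ≤ Real.log (6 / 5) :=
    Real.log_le_log (by norm_num) (by norm_num)
  have h4 : 3 / 5 * Real.log (6 / 5) + 2 / 5 * Real.log (4 / 5) ≤
      mar π ν b * Real.log (6 / 5) + mar π ν (!b) * Real.log (4 / 5) := by
    have : mar π ν (!b) = 1 - mar π ν b := by linarith
    rw [this]
    nlinarith
  have h5 : 1 - (3456 / 3125 : ℝ)⁻¹ ≤ Real.log (3456 / 3125) :=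
    Real.one_sub_inv_le_log_of_pos (by norm_num)
  have h6 : Real.log (3456 / 3125) = 3 * Real.log (6 / 5) + 2 * Real.log (4 / 5) := by
    have e1 : (3 : ℝ) * Real.log (6 / 5) = Real.log ((6 / 5) ^ 3) := by
      rw [Real.log_pow]; norm_num
    have e2 : (2 : ℝ) * Real.log (4 / 5) = Real.log ((4 / 5) ^ 2) := by
      rw [Real.log_pow]; norm_num
    rw [e1, e2, ← Real.log_mul (by norm_num) (by norm_num)]
    norm_num
  rw [h6] at h5
  norm_num at h5 ⊢
  linarith

end Pool.Agent.Hhelper71.Stream
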