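import Pool.Agent.Hhelper71.Stream.Claim

/-!
# Joint expectations and runs of protocols
-/

namespace Pool.Agent.Hhelper71.Stream

open Finset

set_option linter.unusedSectionVars false
set_option linter.unusedSimpArgs false

variable {Y M : Type} [Fintype Y] [DecidableEq Y] [Fintype M] [DecidableEq M]

/-- The input of player `i`. -/
def ext {K : ℕ} (y : Fin (K + 1) → Y) (i : ℕ) : Y := y (Fin.ofNat (K + 1) i)

/-- The final message of the protocol on the inputs `y`. -/
def run {K : ℕ} (l : List (ℕ × (M → Y → M))) (σ : M) (y : Fin (K + 1) → Y) : M :=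
  l.foldl (fun σ s => s.2 σ (ext y s.1)) σ

/-- Expectation when the players' inputs are independent with laws `ν i`. -/
noncomputable def Ex {K : ℕ} (ν : ℕ → Y → ℝ) (F : (Fin (K + 1) → Y) → ℝ) : ℝ :=
  ∑ y : Fin (K + 1) → Y, (∏ i : Fin (K + 1), ν i (y i)) * F y

lemma Ex_mono {K : ℕ} {ν : ℕ → Y → ℝ} (hν : ∀ i, IsDist (ν i))
    {F G : (Fin (K + 1) → Y) → ℝ} (h : ∀ y, F y ≤ G y) : Ex ν F ≤ Ex ν G :=
  Finset.sum_le_sum fun y _ => mul_le_mul_of_nonneg_left (h y)
    (Finset.prod_nonneg fun i _ => (hν i).1 _)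

lemma Ex_one {K : ℕ} {ν : ℕ → Y → ℝ} (hν : ∀ i, IsDist (ν i)) :
    Ex (K := K) ν (fun _ => 1) = 1 := by
  unfold Ex
  simp_rw [mul_one]
  have := (Finset.prod_univ_sum (fun _ : Fin (K + 1) => (Finset.univ : Finset Y))
      (fun i y => ν i y))
  rw [Fintype.piFinset_univ] at this
  rw [← this]
  exact Finset.prod_eq_one fun i _ => (hν i).2

lemma Ex_mul {K : ℕ} (ν : ℕ → Y → ℝ) (c : ℝ) (F : (Fin (K + 1) → Y) → ℝ) :
    Ex ν (fun y => c * F y) = c * Ex ν F := by
  unfold Ex
  rw [Finset.mul_sum]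
  exact Finset.sum_congr rfl fun y _ => by ring

lemma Ex_sum {K : ℕ} {J : Type} (S : Finset J) (ν : ℕ → Y → ℝ)
    (F : J → (Fin (K + 1) → Y) → ℝ) :
    Ex ν (fun y => ∑ j ∈ S, F j y) = ∑ j ∈ S, Ex ν (F j) := by
  unfold Ex
  rw [Finset.sum_comm]
  exact Finset.sum_congr rfl fun y _ => by rw [Finset.mul_sum]

/-- Independence: a function of the input of player `i` times a function not depending on it. -/
lemma Ex_indep {K : ℕ} {ν : ℕ → Y → ℝ} (hν : ∀ i, IsDist (ν i)) (i : Fin (K + 1))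
    (A : Y → ℝ) (F : (Fin (K + 1) → Y) → ℝ)
    (hF : ∀ y a, F (Function.update y i a) = F y) :
    Ex ν (fun y => A (y i) * F y) = (∑ a, ν i a * A a) * Ex ν F := by
  -- the swap involution
  let e : ((Fin (K + 1) → Y) × Y) ≃ ((Fin (K + 1) → Y) × Y) :=
    { toFun := fun p => (Function.update p.1 i p.2, p.1 i)
      invFun := fun p => (Function.update p.1 i p.2, p.1 i)
      left_inv := fun p => by simp
      right_inv := fun p => by simp }
  have hw : ∀ p : (Fin (K + 1) → Y) × Y,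
      (∏ i', ν (i' : Fin (K + 1)) ((e p).1 i')) * ν i (e p).2 =
      (∏ i', ν (i' : Fin (K + 1)) (p.1 i')) * ν i p.2 := by
    intro p
    have h1 : ∀ (y : Fin (K + 1) → Y), ∏ i', ν (i' : Fin (K + 1)) (y i') =
        ν i (y i) * ∏ i' ∈ Finset.univ.erase i, ν (i' : Fin (K + 1)) (y i') := fun y =>
      (Finset.mul_prod_erase _ _ (Finset.mem_univ i)).symm
    rw [h1, h1]
    have h2 : ∏ i' ∈ Finset.univ.erase i, ν (i' : Fin (K + 1)) ((e p).1 i') =
        ∏ i' ∈ Finset.univ.erase i, ν (i' : Fin (K + 1)) (p.1 i') := by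
      refine Finset.prod_congr rfl fun i' hi' => ?_
      have : i' ≠ i := (Finset.mem_erase.mp hi').1
      simp [e, Function.update_of_ne this]
    rw [h2]
    simp only [e, Equiv.coe_fn_mk, Function.update_self]
    ring
  have hsum : ∑ a, ν i a = 1 := (hν i).2
  have hL : Ex ν (fun y => A (y i) * F y) =
      ∑ p : (Fin (K + 1) → Y) × Y, ((∏ i', ν (i' : Fin (K + 1)) (p.1 i')) * ν i p.2) *
        (A (p.1 i) * F p.1) := by
    unfold Ex
    rw [Fintype.sum_prod_type]
    refine Finset.sum_congr rfl fun y _ => ?_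
    calc _ = ((∏ i', ν (i' : Fin (K + 1)) (y i')) * (A (y i) * F y)) * ∑ a, ν i a := by
          rw [hsum, mul_one]
      _ = _ := by
          rw [Finset.mul_sum]
          exact Finset.sum_congr rfl fun a _ => by ring
  have hR : (∑ a, ν i a * A a) * Ex ν F =
      ∑ p : (Fin (K + 1) → Y) × Y, ((∏ i', ν (i' : Fin (K + 1)) (p.1 i')) * ν i p.2) *
        (A p.2 * F p.1) := by
    unfold Ex
    rw [Fintype.sum_prod_type, Finset.mul_sum]
    refine Finset.sum_congr rfl fun y _ => ?_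
    rw [Finset.sum_mul]
    exact Finset.sum_congr rfl fun a _ => by ring
  rw [hL, hR]
  refine Fintype.sum_equiv e _ _ fun p => ?_
  rw [hw p]
  congr 1
  simp only [e, Equiv.coe_fn_mk]
  rw [hF]

/-- Tower property. -/
lemma tot_Ex {K : ℕ} (F : (Fin (K + 1) → Y) → M → ℝ) (l : List (ℕ × (M → Y → M))) :
    ∀ (ν : ℕ → Y → ℝ) (σ : M), (∀ i, IsDist (ν i)) → (∀ s ∈ l, s.1 < K + 1) →
      tot (fun ν' σ' => Ex ν' (fun y => F y σ')) l ν σ = Ex ν (fun y => F y (run l σ y)) := by
  induction l with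
  | nil => intro ν σ _ _; rfl
  | cons s l ih =>
    intro ν σ hν hs
    have hsK : s.1 < K + 1 := hs s (by simp)
    set i : Fin (K + 1) := Fin.ofNat (K + 1) s.1 with hi
    have hival : (i : ℕ) = s.1 := by
      rw [hi]; simp [Fin.ofNat, Nat.mod_eq_of_lt hsK]
    simp only [tot]
    have h1 : ∀ m, mar (s.2 σ) (ν s.1) m * tot (fun ν' σ' => Ex ν' (fun y => F y σ')) l
          (Function.update ν s.1 (cnd (s.2 σ) m (ν s.1))) m =
        mar (s.2 σ) (ν s.1) m * Ex (Function.update ν s.1 (cnd (s.2 σ) m (ν s.1)))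
          (fun y => F y (run l m y)) := by
      intro m
      rcases eq_or_lt_of_le (mar_nonneg (π := s.2 σ) (hν s.1).1 m) with h0 | h0
      · rw [← h0]; simp
      · rw [ih _ _ (isDist_update hν _ _ _ h0) fun s' hs' => hs s' (by simp [hs'])]
    simp_rw [h1]
    unfold Ex
    simp_rw [Finset.mul_sum]
    rw [Finset.sum_comm]
    refine Finset.sum_congr rfl fun y _ => ?_
    have h2 : ∀ (ν' : ℕ → Y → ℝ), ∏ i', ν' (i' : Fin (K + 1)) (y i') =
        ν' s.1 (y i) * ∏ i' ∈ Finset.univ.erase i, ν' (i' : Fin (K + 1)) (y i') := by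
      intro ν'
      have := (Finset.mul_prod_erase Finset.univ
        (fun i' : Fin (K + 1) => ν' (i' : Fin (K + 1)) (y i')) (Finset.mem_univ i)).symm
      rw [this, hival]
    have h3 : ∀ m, ∏ i' ∈ Finset.univ.erase i,
        (Function.update ν s.1 (cnd (s.2 σ) m (ν s.1))) (i' : Fin (K + 1)) (y i') =
        ∏ i' ∈ Finset.univ.erase i, ν (i' : Fin (K + 1)) (y i') := by
      intro m
      refine Finset.prod_congr rfl fun i' hi' => ?_
      have hne : i' ≠ i := (Finset.mem_erase.mp hi').1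
      have : (i' : ℕ) ≠ s.1 := fun h => hne (Fin.ext (by rw [h, hival]))
      rw [Function.update_of_ne this]
    have h4 : ∀ m, mar (s.2 σ) (ν s.1) m *
        ((∏ i', (Function.update ν s.1 (cnd (s.2 σ) m (ν s.1))) (i' : Fin (K + 1)) (y i')) *
          F y (run l m y)) =
        if s.2 σ (y i) = m then (∏ i', ν (i' : Fin (K + 1)) (y i')) * F y (run l m y)
        else 0 := by
      intro m
      rw [h2 (Function.update ν s.1 (cnd (s.2 σ) m (ν s.1))), h3, h2 ν, Function.update_self]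
      unfold cnd
      by_cases hm : s.2 σ (y i) = m
      · simp only [hm, if_true]
        rcases eq_or_lt_of_le (mar_nonneg (π := s.2 σ) (hν s.1).1 m) with h0 | h0
        · have h5 := le_mar (π := s.2 σ) (hν s.1).1 (y i)
          rw [hm, ← h0] at h5
          have h6 : ν s.1 (y i) = 0 := le_antisymm h5 ((hν s.1).1 _)
          rw [← h0, h6]; simp
        · field_simp
      · simp [hm]
    simp_rw [h4]
    rw [Finset.sum_ite_eq]
    simp only [Finset.mem_univ, if_true]
    rfl

end Pool.Agent.Hhelper71.Stream
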