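import Mathlib

/-!
# Multi-pass streaming algorithms for matchings
-/

namespace Pool.Agent.Hhelper71.Stream

/-- A deterministic `k`-pass streaming algorithm with `s` bits of memory for graphs on the
vertex set `Fin n`. -/
structure StreamAlg (k n s : ℕ) where
  /-- the initial contents of the memory -/
  init : Fin s → Bool
  /-- `step p σ e` is the contents of the memory after reading the edge `e` during pass `p`,
  when the contents before was `σ` -/
  step : Fin k → (Fin s → Bool) → Sym2 (Fin n) → (Fin s → Bool)
  /-- `endPass p σ` is the contents of the memory after the end of pass `p` has been reached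
  with contents `σ` -/
  endPass : Fin k → (Fin s → Bool) → (Fin s → Bool)
  /-- the set of edges put out at the end -/
  out : (Fin s → Bool) → Finset (Sym2 (Fin n))

/-- The output of the algorithm: the stream `l` is read from start to end `k` times. -/
def StreamAlg.output {k n s : ℕ} (A : StreamAlg k n s) (l : List (Sym2 (Fin n))) :
    Finset (Sym2 (Fin n)) :=
  A.out ((List.finRange k).foldl (fun σ p => A.endPass p (l.foldl (A.step p) σ)) A.init)

/-- `l` lists the edges of `G`, each exactly once. -/
def IsStreamOf {n : ℕ} (G : SimpleGraph (Fin n)) (l : List (Sym2 (Fin n))) : Prop :=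
  l.Nodup ∧ ∀ e, e ∈ l ↔ e ∈ G.edgeSet

/-- `S` is a set of edges of `G` no two of which share a vertex. -/
def IsMatchingIn {n : ℕ} (G : SimpleGraph (Fin n)) (S : Finset (Sym2 (Fin n))) : Prop :=
  (∀ e ∈ S, e ∈ G.edgeSet) ∧ ∀ e ∈ S, ∀ f ∈ S, ∀ v, v ∈ e → v ∈ f → e = f

/-- The size `M(G)` of a maximum matching of `G`. -/
noncomputable def maxMatching {n : ℕ} (G : SimpleGraph (Fin n)) : ℕ :=
  sSup {m : ℕ | ∃ S, IsMatchingIn G S ∧ S.card = m}

/-- On the input graph `G` given as the stream `l`, the algorithm `A` puts out a matching of `G`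
with at least `(1 - ε) M(G)` edges. -/
def Succeeds {k n s : ℕ} (ε : ℝ) (G : SimpleGraph (Fin n)) (l : List (Sym2 (Fin n)))
    (A : StreamAlg k n s) : Prop :=
  IsMatchingIn G (A.output l) ∧ (1 - ε) * (maxMatching G : ℝ) ≤ ((A.output l).card : ℝ)

end Pool.Agent.Hhelper71.Stream
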