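import Pool.Agent.Hhelper71.Stream.Ruzsa

/-!
# Choice of the parameters
-/

namespace Pool.Agent.Hhelper71.Stream

open Finset Filter

set_option linter.unusedSectionVars false
set_option linter.unusedSimpArgs false

lemma card_Vx (μ N : ℕ → ℕ) (k : ℕ) : Fintype.card (Vx μ N k) =
    2 * ∏ i ∈ Finset.range k, (N i + (N i - μ i)) := by
  induction k with
  | zero =>
    have : Fintype.card (Vx μ N 0) = Fintype.card Bool := rfl
    rw [this]; simp
  | succ k ih => rw [card_Vx_succ, ih, Finset.prod_range_succ]; ring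

lemma card_Vx_le (μ N : ℕ → ℕ) (h : ∀ i, N i ≤ 3 * μ i) (k : ℕ) :
    Fintype.card (Vx μ N k) ≤ 2 * 5 ^ k * ∏ i ∈ Finset.range k, μ i := by
  rw [card_Vx, mul_assoc]
  refine Nat.mul_le_mul_left _ ?_
  have : (5 : ℕ) ^ k = ∏ i ∈ Finset.range k, 5 := by simp
  rw [this, ← Finset.prod_mul_distrib]
  refine Finset.prod_le_prod' fun i _ => ?_
  have := h i
  omega

/-- The exponents of the numbers of matchings. -/
def xs (x₀ : ℕ) : ℕ → ℕ
  | 0 => x₀
  | i + 1 => xs x₀ i + 128 * xs x₀ i ^ 3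

lemma xs_ge (x₀ i : ℕ) : x₀ ≤ xs x₀ i := by
  induction i with
  | zero => exact le_rfl
  | succ i ih => exact ih.trans (Nat.le_add_right _ _)

lemma xs_poly (i : ℕ) : ∃ D E : ℕ, ∀ x₀, 1 ≤ x₀ → xs x₀ i ≤ D * x₀ ^ E := by
  induction i with
  | zero => exact ⟨1, 1, fun x₀ _ => by simp [xs]⟩
  | succ i ih =>
    obtain ⟨D, E, h⟩ := ih
    refine ⟨129 * D ^ 3, 3 * E, fun x₀ hx => ?_⟩
    have h1 := h x₀ hx
    have h2 : 1 ≤ xs x₀ i := hx.trans (xs_ge x₀ i)
    have h3 : xs x₀ i ≤ xs x₀ i ^ 3 := Nat.le_self_pow (by norm_num) _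
    calc xs x₀ (i + 1) = xs x₀ i + 128 * xs x₀ i ^ 3 := rfl
      _ ≤ 129 * xs x₀ i ^ 3 := by omega
      _ ≤ 129 * (D * x₀ ^ E) ^ 3 := by gcongr
      _ = 129 * D ^ 3 * x₀ ^ (3 * E) := by ring

/-- Polynomials are eventually smaller than powers of two. -/
lemma poly_lt_two_pow (k c : ℕ) (C : ℝ) : ∃ l₀ : ℕ, 1 ≤ l₀ ∧ ∀ l ≥ l₀,
    C * ((k + 2 + xs (l + 1) k : ℕ) : ℝ) ^ c < 2 ^ l := by
  obtain ⟨D, E, h⟩ := xs_poly k
  have h1 := tendsto_pow_const_div_const_pow_of_one_lt (E * c) (r := (2 : ℝ)) (by norm_num)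
  have h2 := (tendsto_add_atTop_iff_nat 1).mpr h1
  set B : ℝ := |C| * ((k + 2 + D : ℕ) : ℝ) ^ c with hB
  have hB0 : 0 ≤ B := by positivity
  have h3 := h2.eventually (gt_mem_nhds (show (0 : ℝ) < 1 / (2 * (B + 1)) by positivity))
  obtain ⟨l₁, hl₁⟩ := eventually_atTop.mp h3
  refine ⟨max 1 l₁, le_max_left _ _, fun l hl => ?_⟩
  have h4 := hl₁ l ((le_max_right _ _).trans hl)
  rw [div_lt_div_iff₀ (by positivity) (by positivity), one_mul] at h4
  have h5 : ((k + 2 + xs (l + 1) k : ℕ) : ℝ) ≤ ((k + 2 + D : ℕ) : ℝ) * ((l + 1 : ℕ) : ℝ) ^ E := by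
    have h6 := h (l + 1) (by omega)
    have h7 : 1 ≤ (l + 1) ^ E := Nat.one_le_pow _ _ (by omega)
    have h8 : k + 2 + xs (l + 1) k ≤ (k + 2 + D) * (l + 1) ^ E := by nlinarith
    exact_mod_cast h8
  calc C * ((k + 2 + xs (l + 1) k : ℕ) : ℝ) ^ c
      ≤ |C| * ((k + 2 + xs (l + 1) k : ℕ) : ℝ) ^ c := by
        apply mul_le_mul_of_nonneg_right (le_abs_self C) (by positivity)
    _ ≤ |C| * (((k + 2 + D : ℕ) : ℝ) * ((l + 1 : ℕ) : ℝ) ^ E) ^ c := by gcongr
    _ = B * ((l + 1 : ℕ) : ℝ) ^ (E * c) := by rw [hB, mul_pow, ← pow_mul]; ring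
    _ ≤ (B + 1) * ((l + 1 : ℕ) : ℝ) ^ (E * c) := by
        apply mul_le_mul_of_nonneg_right (by linarith) (by positivity)
    _ < 2 ^ l := by
        rw [pow_succ] at h4
        nlinarith

/-- The choice of all parameters. -/
theorem exists_params (k : ℕ) (C : ℝ) (c : ℕ) : ∃ n₀ : ℕ, ∀ n ≥ n₀,
    ∃ (t μ N : ℕ → ℕ) (L : ℝ), (∀ i, 0 < t i) ∧ (∀ i, 0 < μ i) ∧ (∀ i, N i ≤ 3 * μ i) ∧
      Nonempty (∀ i, RS (t i) (μ i) (N i)) ∧ 0 < L ∧
      (∀ i < k + 1, L * ∏ l ∈ Finset.range i, (μ l : ℝ) ≤ t i) ∧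
      C * Real.log n ^ c < L ∧ 2 * Fintype.card (Vx μ N (k + 1)) ≤ n ∧
      n < 4 * Fintype.card (Vx μ N (k + 1)) := by
  obtain ⟨l₀, hl₀1, hl₀⟩ := poly_lt_two_pow (k + 1) c |C|
  refine ⟨2 ^ (k + 1 + 2 + xs l₀ (k + 1)), fun n hn => ?_⟩
  have hn0 : n ≠ 0 := by
    intro h
    rw [h] at hn
    have : 0 < 2 ^ (k + 1 + 2 + xs l₀ (k + 1)) := by positivity
    omega
  -- choice of the base exponent
  set P : ℕ → Prop := fun l => 2 ^ (k + 1 + 2 + xs l (k + 1)) ≤ n with hP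
  classical
  set b := Nat.log 2 n + 1 with hb
  have hPb : ∀ l, P l → l + 1 ≤ b := by
    intro l hl
    have h1 : k + 1 + 2 + xs l (k + 1) ≤ Nat.log 2 n := Nat.le_log_of_pow_le (by norm_num) hl
    have := xs_ge l (k + 1)
    omega
  set l := Nat.findGreatest P b with hl
  have hPl₀ : P l₀ := hn
  have hPl : P l := Nat.findGreatest_spec (by have := hPb l₀ hPl₀; omega) hPl₀
  have hl₀l : l₀ ≤ l := Nat.le_findGreatest (by have := hPb l₀ hPl₀; omega) hPl₀
  have hPl1 : ¬ P (l + 1) := Nat.findGreatest_is_greatest (Nat.lt_succ_self _) (hPb l hPl)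
  have hl1 : 1 ≤ l := hl₀1.trans hl₀l
  -- the systems
  have hex : ∀ i, ∃ μ N : ℕ, 0 < μ ∧ N ≤ 3 * μ ∧ N ≤ 2 ^ (128 * xs l i ^ 3) ∧
      Nonempty (RS (2 ^ xs l i) μ N) := fun i => exists_RS (xs l i) (hl1.trans (xs_ge l i))
  choose μ N hμ hN3 hN hR using hex
  have hμN : ∀ i, μ i ≤ N i := fun i => by
    obtain ⟨R⟩ := hR i
    exact mu_le_N R ⟨0, by positivity⟩
  set v := 2 * ∏ i ∈ Finset.range (k + 1), (N i + (N i - μ i)) with hv
  have hv0 : 0 < v := by
    rw [hv]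
    refine Nat.mul_pos (by norm_num) (Finset.prod_pos fun i _ => ?_)
    have := hμ i; have := hμN i; omega
  have hprodN : ∀ i, 2 ^ l * ∏ i' ∈ Finset.range i, N i' ≤ 2 ^ xs l i := by
    intro i
    induction i with
    | zero => simp [xs]
    | succ i ih =>
      rw [Finset.prod_range_succ, ← mul_assoc]
      calc 2 ^ l * (∏ i' ∈ Finset.range i, N i') * N i ≤ 2 ^ xs l i * 2 ^ (128 * xs l i ^ 3) :=
            Nat.mul_le_mul ih (hN i)
        _ = 2 ^ xs l (i + 1) := by rw [← pow_add]; rfl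
  have hvle : 2 * v ≤ n := by
    refine le_trans ?_ hPl
    have h1 : ∏ i ∈ Finset.range (k + 1), (N i + (N i - μ i)) ≤
        ∏ i ∈ Finset.range (k + 1), (2 * N i) :=
      Finset.prod_le_prod' fun i _ => by omega
    rw [Finset.prod_mul_distrib, Finset.prod_const, Finset.card_range] at h1
    have h2 := hprodN (k + 1)
    have h3 : ∏ i' ∈ Finset.range (k + 1), N i' ≤ 2 ^ xs l (k + 1) :=
      le_trans (Nat.le_mul_of_pos_left _ (by positivity)) h2
    calc 2 * v ≤ 2 * (2 * (2 ^ (k + 1) * 2 ^ xs l (k + 1))) := by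
          rw [hv]
          exact Nat.mul_le_mul_left _ (Nat.mul_le_mul_left _ (h1.trans
            (Nat.mul_le_mul_left _ h3)))
      _ = 2 ^ (k + 1 + 2 + xs l (k + 1)) := by ring
  set m := n / (2 * v) with hm
  have hm0 : 0 < m := Nat.div_pos hvle (by omega)
  have hm1 : 2 * v * m ≤ n := Nat.mul_div_le n (2 * v)
  have hm2 : n < 4 * v * m := by
    have h1 := Nat.lt_mul_div_succ n (show 0 < 2 * v by omega)
    rw [← hm] at h1
    calc n < 2 * v * (m + 1) := h1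
      _ ≤ 2 * v * (2 * m) := Nat.mul_le_mul_left _ (by omega)
      _ = 4 * v * m := by ring
  set mm : ℕ → ℕ := fun i => if i = k then m else 1 with hmm
  have hmm0 : ∀ i, 0 < mm i := fun i => by
    simp only [hmm]; split_ifs <;> [exact hm0; norm_num]
  have hcard : Fintype.card (Vx (fun i => mm i * μ i) (fun i => mm i * N i) (k + 1)) =
      m * v := by
    rw [card_Vx, hv]
    have h1 : ∀ i, mm i * N i + (mm i * N i - mm i * μ i) = mm i * (N i + (N i - μ i)) := by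
      intro i
      rw [mul_add, Nat.mul_sub]
    simp_rw [h1]
    rw [Finset.prod_mul_distrib]
    have h2 : ∏ i ∈ Finset.range (k + 1), mm i = m := by
      rw [Finset.prod_range_succ]
      have : ∏ i ∈ Finset.range k, mm i = 1 := by
        apply Finset.prod_eq_one
        intro i hi
        simp only [hmm]
        rw [if_neg (by have := Finset.mem_range.mp hi; omega)]
      rw [this]
      simp [hmm]
    rw [h2]; ring
  refine ⟨fun i => 2 ^ xs l i, fun i => mm i * μ i, fun i => mm i * N i, 2 ^ l,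
    fun i => by positivity, fun i => Nat.mul_pos (hmm0 i) (hμ i), fun i => ?_, ?_, by positivity,
    ?_, ?_, ?_, ?_⟩
  · have := Nat.mul_le_mul_left (mm i) (hN3 i)
    calc mm i * N i ≤ mm i * (3 * μ i) := this
      _ = 3 * (mm i * μ i) := by ring
  · exact ⟨fun i => (hR i).some.copies (mm i)⟩
  · intro i hi
    have h1 : 2 ^ l * ∏ i' ∈ Finset.range i, (mm i' * μ i') ≤ 2 ^ xs l i := by
      refine le_trans (Nat.mul_le_mul_left _ (Finset.prod_le_prod' fun i' hi' => ?_)) (hprodN i)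
      have h2 : i' ≠ k := by have := Finset.mem_range.mp hi'; omega
      simp only [hmm, if_neg h2, one_mul]
      exact hμN i'
    exact_mod_cast h1
  · have h1 := hl₀ l hl₀l
    have h2 : Real.log n ≤ ((k + 1 + 2 + xs (l + 1) (k + 1) : ℕ) : ℝ) := by
      have h3 : n < 2 ^ (k + 1 + 2 + xs (l + 1) (k + 1)) := not_le.mp hPl1
      have h4 : (n : ℝ) ≤ 2 ^ (k + 1 + 2 + xs (l + 1) (k + 1)) := by exact_mod_cast h3.le
      have h5 := Real.log_le_log (by positivity) h4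
      rw [Real.log_pow] at h5
      have h6 : Real.log 2 ≤ 1 := by
        have := Real.log_two_lt_d9; linarith
      calc Real.log n ≤ _ := h5
        _ ≤ ((k + 1 + 2 + xs (l + 1) (k + 1) : ℕ) : ℝ) * 1 :=
          mul_le_mul_of_nonneg_left h6 (by positivity)
        _ = _ := mul_one _
    have h3 : 0 ≤ Real.log n := Real.log_natCast_nonneg n
    calc C * Real.log n ^ c ≤ |C| * Real.log n ^ c :=
          mul_le_mul_of_nonneg_right (le_abs_self C) (by positivity)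
      _ ≤ |C| * ((k + 1 + 2 + xs (l + 1) (k + 1) : ℕ) : ℝ) ^ c := by gcongr
      _ < 2 ^ l := h1
  · rw [hcard]; linarith
  · rw [hcard]; linarith

end Pool.Agent.Hhelper71.Stream
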