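import Pool.Agent.Hhelper71.Stream.Info

/-!
# Multi-pass protocols and the round-by-round deficiency bound
-/

namespace Pool.Agent.Hhelper71.Stream

open Finset

set_option linter.unusedSectionVars false
set_option linter.unusedSimpArgs false

variable {Y M : Type} [Fintype Y] [DecidableEq Y] [Fintype M] [DecidableEq M]

/-- Expected value of the functional `G` of the final player laws and the final message, when
the players' inputs are independent with laws `ν i` and the steps of the protocol are performed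
one after the other starting from the message `σ`. A step `(i, g)` replaces the current message
`σ` by `g σ y`, where `y` is the input of player `i`. -/
noncomputable def tot (G : (ℕ → Y → ℝ) → M → ℝ) :
    List (ℕ × (M → Y → M)) → (ℕ → Y → ℝ) → M → ℝ
  | [], ν, σ => G ν σ
  | s :: l, ν, σ => ∑ m, mar (s.2 σ) (ν s.1) m *
      tot G l (Function.update ν s.1 (cnd (s.2 σ) m (ν s.1))) m

lemma isDist_update {ν : ℕ → Y → ℝ} (hν : ∀ i, IsDist (ν i)) {M' : Type} [DecidableEq M']
    (i : ℕ) (f : Y → M') (m : M') (hm : 0 < mar f (ν i) m) :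
    ∀ j, IsDist (Function.update ν i (cnd f m (ν i)) j) := by
  intro j
  by_cases h : j = i
  · subst h
    rw [Function.update_self]
    exact cnd_isDist (hν j).1 hm
  · rw [Function.update_of_ne h]
    exact hν j

lemma tot_mono {G1 G2 : (ℕ → Y → ℝ) → M → ℝ} (l : List (ℕ × (M → Y → M))) :
    ∀ (ν : ℕ → Y → ℝ) (σ : M), (∀ i, IsDist (ν i)) →
      (∀ (ν' : ℕ → Y → ℝ) (σ' : M), (∀ i, IsDist (ν' i)) →
        (∀ i, (∀ s ∈ l, s.1 ≠ i) → ν' i = ν i) → G1 ν' σ' ≤ G2 ν' σ') →
      tot G1 l ν σ ≤ tot G2 l ν σ := by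
  induction l with
  | nil =>
    intro ν σ hν H
    exact H ν σ hν fun _ _ => rfl
  | cons s l ih =>
    intro ν σ hν H
    simp only [tot]
    refine Finset.sum_le_sum fun m _ => ?_
    rcases eq_or_lt_of_le (mar_nonneg (π := s.2 σ) (hν s.1).1 m) with h0 | h0
    · rw [← h0]; simp
    · refine mul_le_mul_of_nonneg_left ?_ h0.le
      refine ih _ _ (isDist_update hν _ _ _ h0) fun ν' σ' hν' hag => ?_
      refine H ν' σ' hν' fun i hi => ?_
      rw [hag i fun s' hs' => hi s' (by simp [hs'])]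
      exact Function.update_of_ne (fun h => hi s (by simp) h.symm) _ _

lemma tot_congr {G1 G2 : (ℕ → Y → ℝ) → M → ℝ} (l : List (ℕ × (M → Y → M)))
    (ν : ℕ → Y → ℝ) (σ : M) (hν : ∀ i, IsDist (ν i))
    (H : ∀ (ν' : ℕ → Y → ℝ) (σ' : M), (∀ i, IsDist (ν' i)) →
        (∀ i, (∀ s ∈ l, s.1 ≠ i) → ν' i = ν i) → G1 ν' σ' = G2 ν' σ') :
    tot G1 l ν σ = tot G2 l ν σ :=
  le_antisymm (tot_mono l ν σ hν fun ν' σ' h1 h2 => (H ν' σ' h1 h2).le)
    (tot_mono l ν σ hν fun ν' σ' h1 h2 => (H ν' σ' h1 h2).ge)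

lemma tot_append (G : (ℕ → Y → ℝ) → M → ℝ) (l1 l2 : List (ℕ × (M → Y → M))) :
    ∀ (ν : ℕ → Y → ℝ) (σ : M), tot G (l1 ++ l2) ν σ = tot (fun ν' σ' => tot G l2 ν' σ') l1 ν σ := by
  induction l1 with
  | nil => intro ν σ; rfl
  | cons s l ih =>
    intro ν σ
    simp only [List.cons_append, tot]
    refine Finset.sum_congr rfl fun m _ => ?_
    rw [ih]

lemma tot_const (c : ℝ) (l : List (ℕ × (M → Y → M))) :
    ∀ (ν : ℕ → Y → ℝ) (σ : M), (∀ i, IsDist (ν i)) → tot (fun _ _ => c) l ν σ = c := by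
  induction l with
  | nil => intro ν σ _; rfl
  | cons s l ih =>
    intro ν σ hν
    simp only [tot]
    have : ∀ m, mar (s.2 σ) (ν s.1) m *
        tot (fun _ _ => c) l (Function.update ν s.1 (cnd (s.2 σ) m (ν s.1))) m =
        mar (s.2 σ) (ν s.1) m * c := by
      intro m
      rcases eq_or_lt_of_le (mar_nonneg (π := s.2 σ) (hν s.1).1 m) with h0 | h0
      · rw [← h0]; simp
      · rw [ih _ _ (isDist_update hν _ _ _ h0)]
    simp_rw [this]
    rw [← Finset.sum_mul, sum_mar, (hν s.1).2, one_mul]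

lemma tot_add (G1 G2 : (ℕ → Y → ℝ) → M → ℝ) (l : List (ℕ × (M → Y → M))) :
    ∀ (ν : ℕ → Y → ℝ) (σ : M), tot (fun ν' σ' => G1 ν' σ' + G2 ν' σ') l ν σ =
      tot G1 l ν σ + tot G2 l ν σ := by
  induction l with
  | nil => intro ν σ; rfl
  | cons s l ih =>
    intro ν σ
    simp only [tot]
    rw [← Finset.sum_add_distrib]
    refine Finset.sum_congr rfl fun m _ => ?_
    rw [ih, mul_add]

lemma tot_mul (c : ℝ) (G : (ℕ → Y → ℝ) → M → ℝ) (l : List (ℕ × (M → Y → M))) :
    ∀ (ν : ℕ → Y → ℝ) (σ : M), tot (fun ν' σ' => c * G ν' σ') l ν σ = c * tot G l ν σ := by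
  induction l with
  | nil => intro ν σ; rfl
  | cons s l ih =>
    intro ν σ
    simp only [tot]
    rw [Finset.mul_sum]
    refine Finset.sum_congr rfl fun m _ => ?_
    rw [ih]; ring

lemma tot_sum {J : Type} (S : Finset J) (G : J → (ℕ → Y → ℝ) → M → ℝ)
    (l : List (ℕ × (M → Y → M))) :
    ∀ (ν : ℕ → Y → ℝ) (σ : M), tot (fun ν' σ' => ∑ j ∈ S, G j ν' σ') l ν σ =
      ∑ j ∈ S, tot (G j) l ν σ := by
  induction l with
  | nil => intro ν σ; rfl
  | cons s l ih =>
    intro ν σ
    simp only [tot]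
    rw [Finset.sum_comm]
    refine Finset.sum_congr rfl fun m _ => ?_
    rw [ih, Finset.mul_sum]

lemma joint_comm {J : Type} [DecidableEq J] {ν : Y → ℝ} (h : ∀ y, 0 ≤ ν y) (f : Y → M)
    (idx : Y → J) (m : M) (j : J) :
    mar f ν m * mar idx (cnd f m ν) j = mar idx ν j * mar f (cnd idx j ν) m := by
  rw [mar_mul_mar_cnd idx f h m j, mar_mul_mar_cnd f idx h j m]
  refine Finset.sum_congr rfl fun y _ => ?_
  simp [and_comm]

lemma cnd_comm {J : Type} [DecidableEq J] {ν : Y → ℝ} (h : ∀ y, 0 ≤ ν y) (f : Y → M)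
    (idx : Y → J) (m : M) (j : J) (hpos : 0 < mar f ν m * mar idx (cnd f m ν) j) :
    cnd idx j (cnd f m ν) = cnd f m (cnd idx j ν) := by
  have h1 : 0 < mar f ν m := by
    rcases eq_or_lt_of_le (mar_nonneg (π := f) h m) with h0 | h0
    · rw [← h0, zero_mul] at hpos; exact absurd hpos (lt_irrefl _)
    · exact h0
  have h2 := hpos
  rw [joint_comm h] at h2
  have h3 : 0 < mar idx ν j := by
    rcases eq_or_lt_of_le (mar_nonneg (π := idx) h j) with h0 | h0
    · rw [← h0, zero_mul] at h2; exact absurd h2 (lt_irrefl _)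
    · exact h0
  have key : ∀ y, cnd idx j (cnd f m ν) y = cnd f m (cnd idx j ν) y := by
    intro y
    have e1 : cnd idx j (cnd f m ν) y = if idx y = j then cnd f m ν y / mar idx (cnd f m ν) j
      else 0 := rfl
    have e2 : cnd f m (cnd idx j ν) y = if f y = m then cnd idx j ν y / mar f (cnd idx j ν) m
      else 0 := rfl
    rw [e1, e2]
    have e3 : cnd f m ν y = if f y = m then ν y / mar f ν m else 0 := rfl
    have e4 : cnd idx j ν y = if idx y = j then ν y / mar idx ν j else 0 := rfl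
    rw [e3, e4]
    by_cases hi : idx y = j <;> by_cases hf : f y = m <;> simp [hi, hf]
    rw [div_div, div_div, joint_comm h]
  exact funext key

/-- Law of total probability: the law of player `k` may be split at the beginning according to
the value of `idx`, when the functionals do not depend on the law of player `k`. -/
lemma tot_split {J : Type} [Fintype J] [DecidableEq J] (k : ℕ) (idx : Y → J)
    (G : J → (ℕ → Y → ℝ) → M → ℝ)
    (hG : ∀ j (ν : ℕ → Y → ℝ) (a : Y → ℝ) (σ : M), G j (Function.update ν k a) σ = G j ν σ)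
    (l : List (ℕ × (M → Y → M))) :
    ∀ (ν : ℕ → Y → ℝ) (σ : M), (∀ i, IsDist (ν i)) →
      tot (fun ν' σ' => ∑ j, mar idx (ν' k) j * G j ν' σ') l ν σ =
      ∑ j, mar idx (ν k) j * tot (G j) l (Function.update ν k (cnd idx j (ν k))) σ := by
  induction l with
  | nil =>
    intro ν σ _
    simp only [tot]
    refine Finset.sum_congr rfl fun j _ => ?_
    rw [hG]
  | cons s l ih =>
    intro ν σ hν
    have hL : tot (fun ν' σ' => ∑ j, mar idx (ν' k) j * G j ν' σ') (s :: l) ν σ =
        ∑ m, ∑ j, mar (s.2 σ) (ν s.1) m *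
          (mar idx (Function.update ν s.1 (cnd (s.2 σ) m (ν s.1)) k) j *
          tot (G j) l (Function.update (Function.update ν s.1 (cnd (s.2 σ) m (ν s.1))) k
            (cnd idx j (Function.update ν s.1 (cnd (s.2 σ) m (ν s.1)) k))) m) := by
      simp only [tot]
      refine Finset.sum_congr rfl fun m _ => ?_
      rcases eq_or_lt_of_le (mar_nonneg (π := s.2 σ) (hν s.1).1 m) with h0 | h0
      · rw [← h0]; simp
      · rw [ih _ _ (isDist_update hν _ _ _ h0), Finset.mul_sum]
    rw [hL, Finset.sum_comm]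
    refine Finset.sum_congr rfl fun j _ => ?_
    simp only [tot]
    rw [Finset.mul_sum]
    refine Finset.sum_congr rfl fun m _ => ?_
    by_cases hk : s.1 = k
    · subst hk
      simp only [Function.update_self, Function.update_idem]
      rcases eq_or_lt_of_le (mul_nonneg (mar_nonneg (π := s.2 σ) (hν s.1).1 m)
        (mar_nonneg (π := idx) (ν := cnd (s.2 σ) m (ν s.1)) (fun y => by
          unfold cnd
          split_ifs
          · exact div_nonneg ((hν s.1).1 y) (mar_nonneg (hν s.1).1 m)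
          · exact le_rfl) j)) with h0 | h0
      · rw [← mul_assoc, ← h0, zero_mul, ← mul_assoc]
        rw [joint_comm (hν s.1).1] at h0
        rw [← h0, zero_mul]
      · rw [cnd_comm (hν s.1).1 _ _ _ _ h0, ← mul_assoc, joint_comm (hν s.1).1, mul_assoc]
    · have hk' : k ≠ s.1 := fun h => hk h.symm
      simp only [Function.update_of_ne hk', Function.update_of_ne hk]
      rw [Function.update_comm hk]
      ring

lemma tot_D_mono {X : Type} [Fintype X] [DecidableEq X] [Nonempty X] (π : Y → X) (i : ℕ)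
    (l : List (ℕ × (M → Y → M))) :
    ∀ (ν : ℕ → Y → ℝ) (σ : M), (∀ i, IsDist (ν i)) →
      D π (ν i) ≤ tot (fun ν' _ => D π (ν' i)) l ν σ := by
  induction l with
  | nil => intro ν σ _; exact le_rfl
  | cons s l ih =>
    intro ν σ hν
    simp only [tot]
    have h1 : ∑ m, mar (s.2 σ) (ν s.1) m *
        D π (Function.update ν s.1 (cnd (s.2 σ) m (ν s.1)) i) ≤
        ∑ m, mar (s.2 σ) (ν s.1) m *
        tot (fun ν' _ => D π (ν' i)) l (Function.update ν s.1 (cnd (s.2 σ) m (ν s.1))) m := by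
      refine Finset.sum_le_sum fun m _ => ?_
      rcases eq_or_lt_of_le (mar_nonneg (π := s.2 σ) (hν s.1).1 m) with h0 | h0
      · rw [← h0]; simp
      · exact mul_le_mul_of_nonneg_left (ih _ _ (isDist_update hν _ _ _ h0)) h0.le
    refine le_trans ?_ h1
    by_cases hi : i = s.1
    · subst hi
      simp only [Function.update_self]
      exact D_le_message π _ (hν s.1)
    · simp only [Function.update_of_ne hi]
      rw [← Finset.sum_mul, sum_mar, (hν s.1).2, one_mul]

lemma tot_D_le {X : Type} [Fintype X] [DecidableEq X] [Nonempty X] [Nonempty M] (π : Y → X)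
    (S : Finset ℕ) (l : List (ℕ × (M → Y → M))) :
    ∀ (ν : ℕ → Y → ℝ) (σ : M), (∀ i, IsDist (ν i)) →
      tot (fun ν' _ => ∑ i ∈ S, D π (ν' i)) l ν σ ≤
        ∑ i ∈ S, D π (ν i) + l.length * Real.log (Fintype.card M) := by
  induction l with
  | nil => intro ν σ _; simp [tot]
  | cons s l ih =>
    intro ν σ hν
    simp only [tot]
    have h1 : ∑ m, mar (s.2 σ) (ν s.1) m * tot (fun ν' _ => ∑ i ∈ S, D π (ν' i)) l
          (Function.update ν s.1 (cnd (s.2 σ) m (ν s.1))) m ≤
        ∑ m, mar (s.2 σ) (ν s.1) m *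
        (∑ i ∈ S, D π (Function.update ν s.1 (cnd (s.2 σ) m (ν s.1)) i) +
          l.length * Real.log (Fintype.card M)) := by
      refine Finset.sum_le_sum fun m _ => ?_
      rcases eq_or_lt_of_le (mar_nonneg (π := s.2 σ) (hν s.1).1 m) with h0 | h0
      · rw [← h0]; simp
      · exact mul_le_mul_of_nonneg_left (ih _ _ (isDist_update hν _ _ _ h0)) h0.le
    refine h1.trans ?_
    simp_rw [mul_add]
    rw [Finset.sum_add_distrib, ← Finset.sum_mul, sum_mar, (hν s.1).2, one_mul]
    have hlog : 0 ≤ Real.log (Fintype.card M) :=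
      Real.log_natCast_nonneg _
    have h2 : ∑ m, mar (s.2 σ) (ν s.1) m *
        ∑ i ∈ S, D π (Function.update ν s.1 (cnd (s.2 σ) m (ν s.1)) i) ≤
        ∑ i ∈ S, D π (ν i) + Real.log (Fintype.card M) := by
      simp_rw [Finset.mul_sum]
      rw [Finset.sum_comm]
      by_cases hs : s.1 ∈ S
      · rw [← Finset.add_sum_erase _ _ hs, ← Finset.add_sum_erase S (fun i => D π (ν i)) hs]
        have h3 : ∑ m, mar (s.2 σ) (ν s.1) m *
            D π (Function.update ν s.1 (cnd (s.2 σ) m (ν s.1)) s.1) ≤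
            D π (ν s.1) + Real.log (Fintype.card M) := by
          simp only [Function.update_self]
          exact D_message_le π _ (hν s.1)
        have h4 : ∑ i ∈ S.erase s.1, ∑ m, mar (s.2 σ) (ν s.1) m *
            D π (Function.update ν s.1 (cnd (s.2 σ) m (ν s.1)) i) =
            ∑ i ∈ S.erase s.1, D π (ν i) := by
          refine Finset.sum_congr rfl fun i hi => ?_
          have hne : i ≠ s.1 := (Finset.mem_erase.mp hi).1
          simp only [Function.update_of_ne hne]
          rw [← Finset.sum_mul, sum_mar, (hν s.1).2, one_mul]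
        linarith
      · have h4 : ∑ i ∈ S, ∑ m, mar (s.2 σ) (ν s.1) m *
            D π (Function.update ν s.1 (cnd (s.2 σ) m (ν s.1)) i) =
            ∑ i ∈ S, D π (ν i) := by
          refine Finset.sum_congr rfl fun i hi => ?_
          have hne : i ≠ s.1 := fun h => hs (h ▸ hi)
          simp only [Function.update_of_ne hne]
          rw [← Finset.sum_mul, sum_mar, (hν s.1).2, one_mul]
        linarith
    rw [List.length_cons]
    push_cast
    linarith

/-! ### Instances -/

/-- Instances of level `k`: a bit at level `0`; at level `k+1`, a family of instances of level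
`k` indexed by `Fin (t k) × Fin (μ k)`, and an index in `Fin (t k)`. -/
def Inst (t μ : ℕ → ℕ) : ℕ → Type
  | 0 => Bool
  | k + 1 => (Fin (t k) × Fin (μ k) → Inst t μ k) × Fin (t k)

variable {t μ : ℕ → ℕ}

noncomputable instance instFintypeInst : ∀ k, Fintype (Inst t μ k)
  | 0 => inferInstanceAs (Fintype Bool)
  | k + 1 =>
    haveI := instFintypeInst k
    inferInstanceAs (Fintype ((Fin (t k) × Fin (μ k) → Inst t μ k) × Fin (t k)))

instance instDecEqInst : ∀ k, DecidableEq (Inst t μ k)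
  | 0 => inferInstanceAs (DecidableEq Bool)
  | k + 1 =>
    haveI := instDecEqInst k
    inferInstanceAs (DecidableEq ((Fin (t k) × Fin (μ k) → Inst t μ k) × Fin (t k)))

instance instNonemptyInst [∀ k, NeZero (t k)] : ∀ k, Nonempty (Inst t μ k)
  | 0 => inferInstanceAs (Nonempty Bool)
  | k + 1 =>
    haveI := instNonemptyInst k
    inferInstanceAs (Nonempty ((Fin (t k) × Fin (μ k) → Inst t μ k) × Fin (t k)))

/-- The sub-instance with address `(j, e)`. -/
def sub {k : ℕ} (j : Fin (t k)) (e : Fin (μ k)) (z : Inst t μ (k + 1)) : Inst t μ k := z.1 (j, e)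

/-- The index of an instance. -/
def idx {k : ℕ} (z : Inst t μ (k + 1)) : Fin (t k) := z.2

/-- Expected fraction of relevant bits with deficiency at least `1/60`. -/
noncomputable def Psi : (k : ℕ) → (Y → Inst t μ k) → (ℕ → Y → ℝ) → ℝ
  | 0, π, ν => if 1 / 60 ≤ D (X := Bool) π (ν 0) then 1 else 0
  | k + 1, π, ν => ∑ j, mar (fun y => idx (π y)) (ν (k + 1)) j *
      ((1 / (μ k : ℝ)) * ∑ e, Psi k (fun y => sub j e (π y)) ν)

/-- Total deficiency of the players `0, …, k`. -/
noncomputable def Pot (k : ℕ) (π : Y → Inst t μ k) (ν : ℕ → Y → ℝ) : ℝ :=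
  ∑ i ∈ Finset.range (k + 1), D π (ν i)

lemma Psi_nonneg [∀ k, NeZero (t k)] (k : ℕ) :
    ∀ (π : Y → Inst t μ k) (ν : ℕ → Y → ℝ), (∀ i, IsDist (ν i)) → 0 ≤ Psi k π ν := by
  induction k with
  | zero => intro π ν _; unfold Psi; split_ifs <;> norm_num
  | succ k ih =>
    intro π ν hν
    unfold Psi
    refine Finset.sum_nonneg fun j _ => mul_nonneg (mar_nonneg (hν _).1 _) ?_
    exact mul_nonneg (by positivity) (Finset.sum_nonneg fun e _ => ih _ _ hν)

lemma Psi_le_one [∀ k, NeZero (t k)] [∀ k, NeZero (μ k)] (k : ℕ) :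
    ∀ (π : Y → Inst t μ k) (ν : ℕ → Y → ℝ), (∀ i, IsDist (ν i)) → Psi k π ν ≤ 1 := by
  induction k with
  | zero => intro π ν _; unfold Psi; split_ifs <;> norm_num
  | succ k ih =>
    intro π ν hν
    unfold Psi
    have hμ : (μ k : ℝ) ≠ 0 := by exact_mod_cast NeZero.ne (μ k)
    calc ∑ j, mar (fun y => idx (π y)) (ν (k + 1)) j *
        ((1 / (μ k : ℝ)) * ∑ e, Psi k (fun y => sub j e (π y)) ν)
        ≤ ∑ j, mar (fun y => idx (π y)) (ν (k + 1)) j * 1 := by
          refine Finset.sum_le_sum fun j _ => mul_le_mul_of_nonneg_left ?_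
            (mar_nonneg (hν _).1 _)
          calc (1 / (μ k : ℝ)) * ∑ e, Psi k (fun y => sub j e (π y)) ν
              ≤ (1 / (μ k : ℝ)) * ∑ e : Fin (μ k), (1 : ℝ) :=
                mul_le_mul_of_nonneg_left (Finset.sum_le_sum fun e _ => ih _ _ hν)
                  (by positivity)
            _ = 1 := by simp [hμ]
      _ = 1 := by rw [← Finset.sum_mul, sum_mar, (hν _).2, mul_one]

lemma Psi_update (k i : ℕ) (hi : k < i) (a : Y → ℝ) :
    ∀ (π : Y → Inst t μ k) (ν : ℕ → Y → ℝ), Psi k π (Function.update ν i a) = Psi k π ν := by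
  induction k with
  | zero =>
    intro π ν
    unfold Psi
    rw [Function.update_of_ne (by omega)]
  | succ k ih =>
    intro π ν
    unfold Psi
    rw [Function.update_of_ne (by omega)]
    refine Finset.sum_congr rfl fun j _ => ?_
    congr 2
    exact Finset.sum_congr rfl fun e _ => ih (by omega) _ _

lemma Pot_congr (k : ℕ) (π : Y → Inst t μ k) (ν ν' : ℕ → Y → ℝ)
    (h : ∀ i ≤ k, ν' i = ν i) : Pot k π ν' = Pot k π ν := by
  unfold Pot
  refine Finset.sum_congr rfl fun i hi => ?_
  rw [h i (by simpa [Nat.lt_succ_iff] using hi)]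

/-- The list of steps of a protocol with `k` passes, as far as the players `0, …, k` are
concerned. -/
def Good : ℕ → List (ℕ × (M → Y → M)) → Prop
  | 0, l => l = []
  | k + 1, l => ∃ l1 l2 l3, l = l1 ++ (l2 ++ l3) ∧ (∀ s ∈ l1, s.1 < k + 1) ∧
      (∀ s ∈ l2, k + 1 ≤ s.1) ∧ Good k l3

/-- The constants of the bound. -/
noncomputable def cA : ℕ → ℝ
  | 0 => 60
  | _ + 1 => 1

/-- The constants of the bound. -/
noncomputable def cB (t μ : ℕ → ℕ) : ℕ → ℝ
  | 0 => 0
  | k + 1 => 2 * cA k / (t k * μ k) + cB t μ k / μ k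

lemma cA_nonneg (k : ℕ) : 0 ≤ cA k := by
  cases k <;> norm_num [cA]

lemma cB_nonneg (k : ℕ) : 0 ≤ cB t μ k := by
  induction k with
  | zero => norm_num [cB]
  | succ k ih =>
    unfold cB
    have := cA_nonneg k
    positivity

lemma D_idx_le [∀ k, NeZero (t k)] {k : ℕ} (π : Y → Inst t μ (k + 1)) {ν : Y → ℝ}
    (h : IsDist ν) : D (fun y => idx (π y)) ν ≤ D π ν := by
  have h1 := D_pair (X := Fin (t k) × Fin (μ k) → Inst t μ k) (X' := Fin (t k)) π h
  have h2 := D_nonneg (fun y => (π y).1) h (X := Fin (t k) × Fin (μ k) → Inst t μ k)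
  have h3 : D (fun y => idx (π y)) ν = D (fun y => (π y).2) ν := rfl
  have h4 : D π ν = D (X := (Fin (t k) × Fin (μ k) → Inst t μ k) × Fin (t k)) π ν := rfl
  linarith

lemma D_sub_le [∀ k, NeZero (t k)] {k : ℕ} (π : Y → Inst t μ (k + 1)) {ν : Y → ℝ}
    (h : IsDist ν) : ∑ j, ∑ e, D (fun y => sub j e (π y)) ν ≤ D π ν := by
  have h1 := D_pair (X := Fin (t k) × Fin (μ k) → Inst t μ k) (X' := Fin (t k)) π h
  have h2 := D_nonneg (fun y => (π y).2) h (X := Fin (t k))
  have h3 := D_superadd (J := Fin (t k) × Fin (μ k)) (X := Inst t μ k)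
    (fun y => (π y).1) h
  rw [Fintype.sum_prod_type] at h3
  have h4 : D π ν = D (X := (Fin (t k) × Fin (μ k) → Inst t μ k) × Fin (t k)) π ν := rfl
  have h5 : ∑ j, ∑ e, D (fun y => sub j e (π y)) ν =
      ∑ x : Fin (t k), ∑ y : Fin (μ k), D (fun y_1 => (π y_1).1 (x, y)) ν := rfl
  linarith

lemma D_sub_le' [∀ k, NeZero (t k)] {k : ℕ} (π : Y → Inst t μ (k + 1)) {ν : Y → ℝ}
    (h : IsDist ν) (j : Fin (t k)) : ∑ e, D (fun y => sub j e (π y)) ν ≤ D π ν := by
  refine le_trans ?_ (D_sub_le π h)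
  exact Finset.single_le_sum (f := fun j => ∑ e, D (fun y => sub j e (π y)) ν)
    (fun j _ => Finset.sum_nonneg fun e _ => D_nonneg _ h) (Finset.mem_univ j)

end Pool.Agent.Hhelper71.Stream
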