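import Pool.Agent.Hhelper71.Stream.Graph

/-!
# Ruzsa–Szemerédi systems with matchings of linear size
-/

namespace Pool.Agent.Hhelper71.Stream

open Finset

set_option linter.unusedSectionVars false
set_option linter.unusedSimpArgs false
set_option linter.unusedVariables false

/-- The transfer of a system to `Fin N`. -/
noncomputable def RS.ofTypes {t μ N : ℕ} {V : Type} [Fintype V]
    (hV : Fintype.card V = N) (E' : Fin t → Type) [∀ j, Fintype (E' j)]
    (hE : ∀ j, Fintype.card (E' j) = μ)
    (left right : (j : Fin t) → E' j → V) (hl : ∀ j, Function.Injective (left j))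
    (hr : ∀ j, Function.Injective (right j))
    (ind : ∀ j j' e' e₁ e₂, left j' e' = left j e₁ → right j' e' = right j e₂ → j' = j) :
    RS t μ N where
  left j e := Fintype.equivFinOfCardEq hV (left j ((Fintype.equivFinOfCardEq (hE j)).symm e))
  right j e := Fintype.equivFinOfCardEq hV (right j ((Fintype.equivFinOfCardEq (hE j)).symm e))
  left_inj j := (Equiv.injective _).comp ((hl j).comp (Equiv.injective _))
  right_inj j := (Equiv.injective _).comp ((hr j).comp (Equiv.injective _))
  ind j j' e' e₁ e₂ h1 h2 := ind j j' _ _ _ ((Equiv.injective _) h1) ((Equiv.injective _) h2)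

/-- Copies of a system. -/
def RS.copies {t μ N : ℕ} (m : ℕ) (R : RS t μ N) : RS t (m * μ) (m * N) where
  left j e := finProdFinEquiv ((finProdFinEquiv.symm e).1, R.left j (finProdFinEquiv.symm e).2)
  right j e := finProdFinEquiv ((finProdFinEquiv.symm e).1, R.right j (finProdFinEquiv.symm e).2)
  left_inj j := by
    intro a b h
    have h1 := finProdFinEquiv.injective h
    have h2 := congrArg Prod.fst h1
    have h3 := R.left_inj j (congrArg Prod.snd h1)
    exact finProdFinEquiv.symm.injective (Prod.ext h2 h3)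
  right_inj j := by
    intro a b h
    have h1 := finProdFinEquiv.injective h
    have h2 := congrArg Prod.fst h1
    have h3 := R.right_inj j (congrArg Prod.snd h1)
    exact finProdFinEquiv.symm.injective (Prod.ext h2 h3)
  ind j j' e' e₁ e₂ h1 h2 := by
    have h3 := congrArg Prod.snd (finProdFinEquiv.injective h1)
    have h4 := congrArg Prod.snd (finProdFinEquiv.injective h2)
    exact R.ind j j' _ _ _ h3 h4

/-- Fewer matchings. -/
def RS.restrict {t t' μ N : ℕ} (h : t' ≤ t) (R : RS t μ N) : RS t' μ N where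
  left j e := R.left (Fin.castLE h j) e
  right j e := R.right (Fin.castLE h j) e
  left_inj j := R.left_inj _
  right_inj j := R.right_inj _
  ind j j' e' e₁ e₂ h1 h2 := Fin.castLE_injective h (R.ind _ _ e' e₁ e₂ h1 h2)

section poly

variable {p h : ℕ} [Fact p.Prime]

/-- Polynomial with prescribed coefficients. -/
noncomputable def polyOf (c : Fin (h + 1) → ZMod p) : Polynomial (ZMod p) :=
  ∑ j : Fin (h + 1), Polynomial.monomial (j : ℕ) (c j)

lemma polyOf_coeff (c : Fin (h + 1) → ZMod p) (j : Fin (h + 1)) :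
    (polyOf c).coeff j = c j := by
  unfold polyOf
  rw [Polynomial.finsetSum_coeff]
  simp only [Polynomial.coeff_monomial]
  rw [Finset.sum_eq_single j]
  · simp
  · intro b _ hb
    rw [if_neg]
    intro h'
    exact hb (Fin.ext h')
  · simp

lemma polyOf_natDegree_le (c : Fin (h + 1) → ZMod p) : (polyOf c).natDegree ≤ h := by
  unfold polyOf
  refine Polynomial.natDegree_sum_le_of_forall_le _ _ fun j _ => ?_
  exact (Polynomial.natDegree_monomial_le _).trans (Nat.lt_succ_iff.mp j.2)

lemma agree_le (c c' : Fin (h + 1) → ZMod p) (hc : c ≠ c') :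
    (Finset.univ.filter fun i : ZMod p => (polyOf c).eval i = (polyOf c').eval i).card ≤ h := by
  have hne : polyOf c - polyOf c' ≠ 0 := by
    intro h0
    apply hc
    funext j
    rw [← polyOf_coeff c j, ← polyOf_coeff c' j, sub_eq_zero.mp h0]
  have hdeg : (polyOf c - polyOf c').natDegree ≤ h :=
    (Polynomial.natDegree_sub_le _ _).trans (max_le (polyOf_natDegree_le c)
      (polyOf_natDegree_le c'))
  have h1 : (Finset.univ.filter fun i : ZMod p => (polyOf c).eval i = (polyOf c').eval i) ⊆
      (polyOf c - polyOf c').roots.toFinset := by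
    intro i hi
    rw [Multiset.mem_toFinset, Polynomial.mem_roots hne, Polynomial.IsRoot.def,
      Polynomial.eval_sub, (Finset.mem_filter.mp hi).2, sub_self]
  calc _ ≤ _ := Finset.card_le_card h1
    _ ≤ Multiset.card (polyOf c - polyOf c').roots := Multiset.toFinset_card_le _
    _ ≤ (polyOf c - polyOf c').natDegree := Polynomial.card_roots' _
    _ ≤ h := hdeg

end poly

section sets

variable {Ω : Type} [Fintype Ω] [DecidableEq Ω]

/-- The shear sending `x i₀` to the sum of `x` over `T ∋ i₀`. -/
def shear {W : ℕ} (T : Finset Ω) (i₀ : Ω) : (Ω → ZMod W) ≃ (Ω → ZMod W) where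
  toFun x := Function.update x i₀ (x i₀ + ∑ i ∈ T.erase i₀, x i)
  invFun y := Function.update y i₀ (y i₀ - ∑ i ∈ T.erase i₀, y i)
  left_inv x := by
    have h1 : ∀ a : ZMod W, ∑ i ∈ T.erase i₀, Function.update x i₀ a i =
        ∑ i ∈ T.erase i₀, x i := fun a => Finset.sum_congr rfl fun i hi =>
      Function.update_of_ne (Finset.mem_erase.mp hi).1 _ _
    simp [h1]
  right_inv y := by
    have h1 : ∀ a : ZMod W, ∑ i ∈ T.erase i₀, Function.update y i₀ a i =
        ∑ i ∈ T.erase i₀, y i := fun a => Finset.sum_congr rfl fun i hi =>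
      Function.update_of_ne (Finset.mem_erase.mp hi).1 _ _
    simp [h1]

lemma card_window {W w : ℕ} [NeZero W] (hw : w ≤ W) (T : Finset Ω) (hT : T.Nonempty) :
    Fintype.card {x : Ω → ZMod W // (∑ i ∈ T, x i).val < w} =
      w * W ^ (Fintype.card Ω - 1) := by
  obtain ⟨i₀, hi₀⟩ := hT
  have h1 : Fintype.card {x : Ω → ZMod W // (∑ i ∈ T, x i).val < w} =
      Fintype.card {y : Ω → ZMod W // (y i₀).val < w} := by
    refine Fintype.card_congr ((shear T i₀).subtypeEquiv fun x => ?_)
    have : (shear T i₀ x) i₀ = ∑ i ∈ T, x i := by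
      simp only [shear, Equiv.coe_fn_mk, Function.update_self]
      exact Finset.add_sum_erase T x hi₀
    rw [this]
  rw [h1, Fintype.card_subtype]
  have h2 : (Finset.univ.filter fun y : Ω → ZMod W => (y i₀).val < w) =
      Fintype.piFinset fun i => if i = i₀ then
        (Finset.univ.filter fun a : ZMod W => a.val < w) else Finset.univ := by
    ext y
    simp only [Finset.mem_filter, Finset.mem_univ, true_and, Fintype.mem_piFinset]
    constructor
    · intro h i
      split_ifs with hi
      · subst hi; simpa using h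
      · simp
    · intro h
      have := h i₀
      simpa using this
  rw [h2, Fintype.card_piFinset, ← Finset.mul_prod_erase _ _ (Finset.mem_univ i₀)]
  have h3 : (Finset.univ.filter fun a : ZMod W => a.val < w).card = w := by
    have : (Finset.univ.filter fun a : ZMod W => a.val < w) =
        (Finset.range w).image fun n : ℕ => (n : ZMod W) := by
      ext a
      simp only [Finset.mem_filter, Finset.mem_univ, true_and, Finset.mem_image,
        Finset.mem_range]
      constructor
      · intro h
        exact ⟨a.val, h, ZMod.natCast_zmod_val a⟩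
      · rintro ⟨n, hn, rfl⟩
        rw [ZMod.val_natCast_of_lt (by omega)]
        exact hn
    rw [this, Finset.card_image_of_injOn, Finset.card_range]
    intro a ha b hb hab
    have ha' : a < w := Finset.mem_range.mp (by simpa using ha)
    have hb' : b < w := Finset.mem_range.mp (by simpa using hb)
    have := congrArg ZMod.val hab
    simp only at this
    rwa [ZMod.val_natCast_of_lt (by omega), ZMod.val_natCast_of_lt (by omega)] at this
  simp only [if_true]
  rw [h3]
  congr 1
  rw [Finset.prod_congr rfl (g := fun _ => W)]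
  · rw [Finset.prod_const, Finset.card_erase_of_mem (Finset.mem_univ _), Finset.card_univ]
  · intro i hi
    rw [if_neg (Finset.mem_erase.mp hi).1, Finset.card_univ, ZMod.card]

lemma val_add_small {W : ℕ} [NeZero W] (s : ZMod W) (m : ℕ) (h : s.val + m < W) :
    (s + (m : ZMod W)).val = s.val + m := by
  have hm : ((m : ZMod W)).val = m := ZMod.val_natCast_of_lt (by omega)
  rw [ZMod.val_add_of_lt (by rw [hm]; exact h), hm]

/-- A family of sets with small intersections gives a Ruzsa–Szemerédi system. -/
noncomputable def RS.ofSets {t h : ℕ} (T : Fin t → Finset Ω) (hT : ∀ j, (T j).card = 2 * h + 1)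
    (hTT : ∀ j j', j ≠ j' → (T j ∩ T j').card ≤ h) :
    RS t ((h + 1) * (3 * h + 2) ^ (Fintype.card Ω - 1)) ((3 * h + 2) ^ Fintype.card Ω) :=
  haveI : NeZero (3 * h + 2) := ⟨by omega⟩
  RS.ofTypes (V := Ω → ZMod (3 * h + 2))
    (by rw [Fintype.card_fun, ZMod.card])
    (fun j => {x : Ω → ZMod (3 * h + 2) // (∑ i ∈ T j, x i).val < h + 1})
    (fun j => card_window (by omega) (T j) (by
      rw [← Finset.card_pos, hT j]; omega))
    (fun j x => x.1)
    (fun j x => x.1 + fun i => if i ∈ T j then 1 else 0)
    (fun j a b hab => Subtype.ext hab)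
    (fun j a b hab => Subtype.ext (add_right_cancel hab))
    (by
      intro j j' x' x₁ x₂ h1 h2
      by_contra hne
      have hs : ∀ (S T' : Finset Ω) (x : Ω → ZMod (3 * h + 2)),
          ∑ i ∈ S, (x + fun i => if i ∈ T' then (1 : ZMod (3 * h + 2)) else 0) i =
          ∑ i ∈ S, x i + ((S ∩ T').card : ZMod (3 * h + 2)) := by
        intro S T' x
        simp only [Pi.add_apply]
        rw [Finset.sum_add_distrib]
        congr 1
        rw [Finset.sum_ite_mem, Finset.sum_const, nsmul_eq_mul, mul_one]
      have h3 : (∑ i ∈ T j, (x'.1 + fun i => if i ∈ T j' then (1 : ZMod (3 * h + 2)) else 0) i).val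
          = (∑ i ∈ T j, (x₂.1 + fun i => if i ∈ T j then (1 : ZMod (3 * h + 2)) else 0) i).val :=
        congrArg (fun x : Ω → ZMod (3 * h + 2) => (∑ i ∈ T j, x i).val) h2
      rw [hs, hs, Finset.inter_self, hT j] at h3
      have h4 := hTT j j' (fun h => hne h.symm)
      have h5 : (∑ i ∈ T j, x'.1 i).val < h + 1 := by
        have := x₁.2
        rw [← h1] at this
        exact this
      rw [val_add_small _ _ (by omega), val_add_small _ _ (by have := x₂.2; omega)] at h3
      omega)

end sets

/-- Existence of systems with many matchings of linear size. -/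
theorem exists_RS (x : ℕ) (hx : 1 ≤ x) : ∃ μ N : ℕ, 0 < μ ∧ N ≤ 3 * μ ∧
    N ≤ 2 ^ (128 * x ^ 3) ∧ Nonempty (RS (2 ^ x) μ N) := by
  obtain ⟨p, hp, hp1, hp2⟩ := Nat.exists_prime_lt_and_le_two_mul (2 * x) (by omega)
  have : Fact p.Prime := ⟨hp⟩
  have hodd : p % 2 = 1 := by
    rcases hp.eq_two_or_odd with h | h
    · omega
    · exact h
  obtain ⟨h, hh⟩ : ∃ h, p = 2 * h + 1 := ⟨p / 2, by omega⟩
  have hc : Fintype.card (Fin (h + 1) → ZMod p) = p ^ (h + 1) := by
    rw [Fintype.card_fun, ZMod.card, Fintype.card_fin]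
  let e := Fintype.equivFinOfCardEq hc
  have ht : 2 ^ x ≤ p ^ (h + 1) :=
    (Nat.pow_le_pow_left hp.two_le x).trans (Nat.pow_le_pow_right hp.pos (by omega))
  let T : Fin (p ^ (h + 1)) → Finset (ZMod p × ZMod p) := fun j =>
    Finset.univ.image fun i : ZMod p => (i, (polyOf (e.symm j)).eval i)
  have hT : ∀ j, (T j).card = 2 * h + 1 := by
    intro j
    rw [Finset.card_image_of_injective _ (fun a b hab => congrArg Prod.fst hab),
      Finset.card_univ, ZMod.card, hh]
  have hTT : ∀ j j', j ≠ j' → (T j ∩ T j').card ≤ h := by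
    intro j j' hjj
    have h1 : T j ∩ T j' ⊆ (Finset.univ.filter fun i : ZMod p =>
        (polyOf (e.symm j)).eval i = (polyOf (e.symm j')).eval i).image
        fun i => (i, (polyOf (e.symm j)).eval i) := by
      intro q hq
      obtain ⟨hq1, hq2⟩ := Finset.mem_inter.mp hq
      obtain ⟨i, -, hi⟩ := Finset.mem_image.mp hq1
      obtain ⟨i', -, hi'⟩ := Finset.mem_image.mp hq2
      have h2 : i' = i := congrArg Prod.fst (hi'.trans hi.symm)
      have h3 : (polyOf (e.symm j')).eval i' = (polyOf (e.symm j)).eval i :=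
        congrArg Prod.snd (hi'.trans hi.symm)
      rw [h2] at h3
      exact Finset.mem_image.mpr ⟨i, Finset.mem_filter.mpr ⟨Finset.mem_univ _, h3.symm⟩, hi⟩
    refine (Finset.card_le_card h1).trans (Finset.card_image_le.trans (agree_le _ _ ?_))
    intro h2
    exact hjj (e.symm.injective h2)
  have hΩ : Fintype.card (ZMod p × ZMod p) = p ^ 2 := by
    rw [Fintype.card_prod, ZMod.card, sq]
  have R := (RS.ofSets T hT hTT).restrict ht
  rw [hΩ] at R
  refine ⟨_, _, ?_, ?_, ?_, ⟨R⟩⟩
  · positivity
  · have hpos : 1 ≤ p ^ 2 := Nat.one_le_pow _ _ hp.pos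
    calc (3 * h + 2) ^ (p ^ 2) = (3 * h + 2) * (3 * h + 2) ^ (p ^ 2 - 1) := by
          rw [← pow_succ']; congr 1; omega
      _ ≤ (3 * (h + 1)) * (3 * h + 2) ^ (p ^ 2 - 1) := by
          apply Nat.mul_le_mul_right; omega
      _ = _ := by ring
  · have h8 : 3 * h + 2 ≤ 2 ^ (8 * x) := by
      have h1 : x < 2 ^ x := Nat.lt_two_pow_self
      have h2 : 3 * h + 2 ≤ 8 * x := by omega
      calc 3 * h + 2 ≤ 8 * x := h2
        _ ≤ 2 ^ 3 * 2 ^ x := by
            have := Nat.mul_le_mul_left 8 h1.le
            simpa using this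
        _ = 2 ^ (3 + x) := (pow_add _ _ _).symm
        _ ≤ 2 ^ (8 * x) := Nat.pow_le_pow_right (by norm_num) (by omega)
    have hp4 : p ^ 2 ≤ 16 * x ^ 2 := by
      have : p ≤ 4 * x := by omega
      calc p ^ 2 ≤ (4 * x) ^ 2 := Nat.pow_le_pow_left this 2
        _ = 16 * x ^ 2 := by ring
    calc (3 * h + 2) ^ (p ^ 2) ≤ (2 ^ (8 * x)) ^ (p ^ 2) := Nat.pow_le_pow_left h8 _
      _ ≤ (2 ^ (8 * x)) ^ (16 * x ^ 2) := Nat.pow_le_pow_right (by positivity) hp4
      _ = 2 ^ (128 * x ^ 3) := by rw [← pow_mul]; congr 1; ring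

end Pool.Agent.Hhelper71.Stream
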