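import Pool.Agent.Hhelper71.Stream.Comm
import Pool.Agent.Hhelper71.Stream.Params
import Pool.Agent.Hhelper71.Stream.Model

/-!
# Simulation of streaming algorithms by protocols, and the main theorem
-/

namespace Pool.Agent.Hhelper71.Stream

lemma le_maxMatching {n : ℕ} {G : SimpleGraph (Fin n)} {S : Finset (Sym2 (Fin n))}
    (h : IsMatchingIn G S) : S.card ≤ maxMatching G := by
  refine le_csSup ⟨Fintype.card (Sym2 (Fin n)), ?_⟩ ⟨S, h, rfl⟩
  rintro m ⟨S', -, rfl⟩
  exact Finset.card_le_univ S'

section proof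

variable {t μ N : ℕ → ℕ} {K n s : ℕ}
variable (R : ∀ k, RS (t k) (μ k) (N k)) (emb : Vx μ N K ⊕ Vx μ N K ↪ Fin n)

/-- The edge of the graph for the pair `p`. -/
def edge (p : Vx μ N K × Vx μ N K) : Sym2 (Fin n) := s(emb (Sum.inl p.1), emb (Sum.inr p.2))

lemma edge_inj {p q : Vx μ N K × Vx μ N K} (h : edge emb p = edge emb q) : p = q := by
  unfold edge at h
  rw [Sym2.eq_iff] at h
  rcases h with ⟨h1, h2⟩ | ⟨h1, -⟩
  · exact Prod.ext (Sum.inl.inj (emb.injective h1)) (Sum.inr.inj (emb.injective h2))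
  · exact absurd (emb.injective h1) (by simp)

lemma edge_not_diag (p : Vx μ N K × Vx μ N K) : ¬ (edge emb p).IsDiag := by
  unfold edge
  rw [Sym2.mk_isDiag_iff]
  intro h
  exact absurd (emb.injective h) (by simp)

open Classical in
/-- The list of the edges of player `i` with input `z`. -/
noncomputable def pl (i : ℕ) (z : Inst t μ K) : List (Sym2 (Fin n)) :=
  ((Finset.univ.filter fun p : Vx μ N K × Vx μ N K => Ed R i K z p.1 p.2).toList).map (edge emb)

lemma mem_pl {i : ℕ} {z : Inst t μ K} {e : Sym2 (Fin n)} :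
    e ∈ pl R emb i z ↔ ∃ p : Vx μ N K × Vx μ N K, Ed R i K z p.1 p.2 ∧ edge emb p = e := by
  unfold pl
  simp

/-- The whole stream. -/
noncomputable def str (y : Fin (K + 1) → Inst t μ K) : List (Sym2 (Fin n)) :=
  (List.range (K + 1)).flatMap fun i => pl R emb i (ext y i)

/-- The graph. -/
def Gr (y : Fin (K + 1) → Inst t μ K) : SimpleGraph (Fin n) :=
  SimpleGraph.fromEdgeSet {e | ∃ i ≤ K, ∃ p : Vx μ N K × Vx μ N K,
    Ed R i K (ext y i) p.1 p.2 ∧ edge emb p = e}

lemma mem_Gr {y : Fin (K + 1) → Inst t μ K} {e : Sym2 (Fin n)} :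
    e ∈ (Gr R emb y).edgeSet ↔ ∃ i ≤ K, ∃ p : Vx μ N K × Vx μ N K,
      Ed R i K (ext y i) p.1 p.2 ∧ edge emb p = e := by
  unfold Gr
  rw [SimpleGraph.edgeSet_fromEdgeSet]
  constructor
  · rintro ⟨h, -⟩
    exact h
  · rintro h
    refine ⟨h, ?_⟩
    obtain ⟨i, -, p, -, rfl⟩ := h
    exact edge_not_diag emb p

lemma isStreamOf_str (y : Fin (K + 1) → Inst t μ K) : IsStreamOf (Gr R emb y) (str R emb y) := by
  constructor
  · unfold str
    rw [List.nodup_flatMap]
    refine ⟨fun i _ => ?_, ?_⟩
    · unfold pl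
      exact (Finset.nodup_toList _).map fun p q h => edge_inj emb h
    · refine List.nodup_range.imp_of_mem ?_
      intro i j _ _ hij e h1 h2
      rw [mem_pl] at h1 h2
      obtain ⟨p, hp, rfl⟩ := h1
      obtain ⟨q, hq, h⟩ := h2
      rw [edge_inj emb h] at hq
      exact hij (Ed_player R K hp hq)
  · intro e
    rw [mem_Gr]
    unfold str
    simp only [List.mem_flatMap, List.mem_range, mem_pl, Nat.lt_succ_iff]

/-- The step of player `i` in pass `p`. -/
noncomputable def stp {k : ℕ} (A : StreamAlg k n s) (p : Fin k) (i : ℕ) (σ : Fin s → Bool)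
    (z : Inst t μ K) : Fin s → Bool :=
  if i = K then A.endPass p ((pl R emb i z).foldl (A.step p) σ)
  else (pl R emb i z).foldl (A.step p) σ

/-- The protocol simulating the passes in the list `ps`. -/
noncomputable def proto {k : ℕ} (A : StreamAlg k n s) (ps : List (Fin k)) :
    List (ℕ × ((Fin s → Bool) → Inst t μ K → (Fin s → Bool))) :=
  ps.flatMap fun p => (List.range (K + 1)).map fun i => (i, stp R emb A p i)

lemma good_proto {k : ℕ} (A : StreamAlg k n s) : ∀ (ps : List (Fin k)), ps.length ≤ K →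
    Good ps.length (proto R emb A ps) := by
  intro ps
  induction ps with
  | nil => intro _; rfl
  | cons p ps ih =>
    intro h
    rw [List.length_cons] at h ⊢
    refine ⟨(List.range (ps.length + 1)).map fun i => (i, stp R emb A p i),
      ((List.range (K - ps.length)).map fun i => (ps.length + 1 + i,
        stp R emb A p (ps.length + 1 + i))), proto R emb A ps, ?_, ?_, ?_, ih (by omega)⟩
    · unfold proto
      rw [List.flatMap_cons, ← List.append_assoc]
      congr 1
      have : K + 1 = (ps.length + 1) + (K - ps.length) := by omega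
      rw [this, List.range_add, List.map_append, List.map_map]
      rfl
    · intro x hx
      obtain ⟨i, hi, rfl⟩ := List.mem_map.mp hx
      simpa using hi
    · intro x hx
      obtain ⟨i, hi, rfl⟩ := List.mem_map.mp hx
      simp

lemma proto_lt {k : ℕ} (A : StreamAlg k n s) (ps : List (Fin k)) :
    ∀ x ∈ proto R emb A ps, x.1 < K + 1 := by
  intro x hx
  unfold proto at hx
  obtain ⟨p, -, hx⟩ := List.mem_flatMap.mp hx
  obtain ⟨i, hi, rfl⟩ := List.mem_map.mp hx
  simpa using hi

lemma length_proto {k : ℕ} (A : StreamAlg k n s) (ps : List (Fin k)) :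
    (proto R emb A ps).length = ps.length * (K + 1) := by
  unfold proto
  rw [List.length_flatMap]
  simp

lemma run_proto {k : ℕ} (A : StreamAlg k n s) (y : Fin (K + 1) → Inst t μ K) :
    ∀ (ps : List (Fin k)) (σ : Fin s → Bool), run (proto R emb A ps) σ y =
      ps.foldl (fun σ p => A.endPass p ((str R emb y).foldl (A.step p) σ)) σ := by
  intro ps
  induction ps with
  | nil => intro σ; rfl
  | cons p ps ih =>
    intro σ
    have h1 : ∀ j ≤ K, ((List.range j).map fun i => (i, stp R emb A p i)).foldl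
        (fun σ s => s.2 σ (ext y s.1)) σ =
        ((List.range j).flatMap fun i => pl R emb i (ext y i)).foldl (A.step p) σ := by
      intro j
      induction j with
      | zero => intro _; rfl
      | succ j ihj =>
        intro hj
        rw [List.range_succ, List.map_append, List.foldl_append, ihj (by omega),
          List.flatMap_append, List.foldl_append]
        simp only [List.map_cons, List.map_nil, List.foldl_cons, List.foldl_nil,
          List.flatMap_cons, List.flatMap_nil, List.append_nil]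
        unfold stp
        rw [if_neg (by omega)]
    have h2 : ((List.range (K + 1)).map fun i => (i, stp R emb A p i)).foldl
        (fun σ s => s.2 σ (ext y s.1)) σ =
        A.endPass p ((str R emb y).foldl (A.step p) σ) := by
      unfold str
      rw [List.range_succ, List.map_append, List.foldl_append, h1 K le_rfl,
          List.flatMap_append, List.foldl_append]
      simp only [List.map_cons, List.map_nil, List.foldl_cons, List.foldl_nil,
          List.flatMap_cons, List.flatMap_nil, List.append_nil]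
      unfold stp
      rw [if_pos rfl]
    have h3 := ih (A.endPass p ((str R emb y).foldl (A.step p) σ))
    unfold run at h3 ⊢
    rw [List.foldl_cons, ← h3]
    have h4 : proto R emb A (p :: ps) = ((List.range (K + 1)).map fun i =>
        (i, stp R emb A p i)) ++ proto R emb A ps := by
      unfold proto
      rw [List.flatMap_cons]
    rw [h4, List.foldl_append, h2]

/-- The graph of any input has a matching of size the number of left vertices. -/
lemma card_le_maxMatching (y : Fin (K + 1) → Inst t μ K) :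
    Fintype.card (Vx μ N K) ≤ maxMatching (Gr R emb y) := by
  obtain ⟨f, hf, hE⟩ := exists_perfect R K (fun i => ext y i)
  have hS : IsMatchingIn (Gr R emb y) (Finset.univ.image fun a => edge emb (a, f a)) := by
    constructor
    · intro e he
      obtain ⟨a, -, rfl⟩ := Finset.mem_image.mp he
      rw [mem_Gr]
      obtain ⟨i, hi, h⟩ := hE a
      exact ⟨i, hi, (a, f a), h, rfl⟩
    · intro e he e' he' v hv hv'
      obtain ⟨a, -, rfl⟩ := Finset.mem_image.mp he
      obtain ⟨a', -, rfl⟩ := Finset.mem_image.mp he'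
      unfold edge at hv hv' ⊢
      rw [Sym2.mem_iff] at hv hv'
      have : a = a' := by
        rcases hv with rfl | rfl <;> rcases hv' with h | h
        · exact Sum.inl.inj (emb.injective h)
        · exact absurd (emb.injective h) (by simp)
        · exact absurd (emb.injective h) (by simp)
        · exact hf (Sum.inr.inj (emb.injective h))
      rw [this]
  have h1 := le_maxMatching hS
  rwa [Finset.card_image_of_injective, Finset.card_univ] at h1
  intro a a' h
  exact congrArg Prod.fst (edge_inj emb h)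

end proof

/-- Uniform expectations are frequencies. -/
lemma Ex_uniform {Y : Type} [Fintype Y] [DecidableEq Y] {K : ℕ}
    (Q : (Fin (K + 1) → Y) → Prop) [DecidablePred Q] :
    Ex (K := K) (fun _ _ => 1 / (Fintype.card Y : ℝ)) (fun y => if Q y then 1 else 0) =
      ((Finset.univ.filter Q).card : ℝ) / (Fintype.card (Fin (K + 1) → Y) : ℝ) := by
  unfold Ex
  simp only [Finset.prod_const, Finset.card_univ, Fintype.card_fin, mul_ite, mul_one, mul_zero]
  rw [Finset.sum_ite, Finset.sum_const_zero, add_zero, Finset.sum_const, nsmul_eq_mul,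
    Fintype.card_fun, Fintype.card_fin]
  push_cast
  rw [one_div, inv_pow]
  rfl

/-- A deterministic algorithm which is often successful uses much memory. -/
lemma det_bound {t μ N : ℕ → ℕ} {K n s : ℕ} (ht : ∀ i, 0 < t i) (hμ : ∀ i, 0 < μ i)
    (hN : ∀ i, N i ≤ 3 * μ i) (R : ∀ k, RS (t k) (μ k) (N k))
    (emb : Vx μ N K ⊕ Vx μ N K ↪ Fin n) (A : StreamAlg K n s)
    (Q : (Fin (K + 1) → Inst t μ K) → Prop) [DecidablePred Q]
    (hQ : ∀ y, Q y → Succeeds (1 / (4 * 5 ^ K)) (Gr R emb y) (str R emb y) A)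
    (h : 13 / 20 * (Fintype.card (Fin (K + 1) → Inst t μ K) : ℝ) ≤
      ((Finset.univ.filter Q).card : ℝ)) :
    3 / 80 ≤ cB t μ K * (K * (K + 1) * s) := by
  have : ∀ k, NeZero (t k) := fun k => ⟨(ht k).ne'⟩
  have : ∀ k, NeZero (μ k) := fun k => ⟨(hμ k).ne'⟩
  classical
  set out' : (Fin s → Bool) → Finset (Vx μ N K × Vx μ N K) := fun σ =>
    Finset.univ.filter fun p => edge emb p ∈ A.out σ with hout'
  set Suc : (Fin (K + 1) → Inst t μ K) → (Fin s → Bool) → Prop := fun y σ =>
    IsMatchingIn (Gr R emb y) (A.out σ) ∧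
      (1 - 1 / (4 * 5 ^ K)) * (maxMatching (Gr R emb y) : ℝ) ≤ ((A.out σ).card : ℝ) with hSucdef
  have hSuc : ∀ y σ, Suc y σ → IsMat (out' σ) ∧
      (∀ p ∈ out' σ, ∃ i, Ed R i K (ext y i) p.1 p.2) ∧
      (Fintype.card (Vx μ N K) : ℝ) ≤ (out' σ).card +
        (1 / 2) * ∏ l ∈ Finset.range K, (μ l : ℝ) := by
    rintro y σ ⟨⟨hE, hM⟩, hc⟩
    have hmem : ∀ p, p ∈ out' σ ↔ edge emb p ∈ A.out σ := fun p => by simp [hout']
    refine ⟨?_, ?_, ?_⟩
    · intro p hp q hq hpq
      rw [hmem] at hp hq
      apply edge_inj emb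
      rcases hpq with h1 | h1
      · refine hM _ hp _ hq (emb (Sum.inl p.1)) ?_ ?_
        · unfold edge; exact Sym2.mem_mk_left _ _
        · unfold edge; rw [h1]; exact Sym2.mem_mk_left _ _
      · refine hM _ hp _ hq (emb (Sum.inr p.2)) ?_ ?_
        · unfold edge; exact Sym2.mem_mk_right _ _
        · unfold edge; rw [h1]; exact Sym2.mem_mk_right _ _
    · intro p hp
      rw [hmem] at hp
      obtain ⟨i, -, q, hq, hpq⟩ := (mem_Gr R emb).mp (hE _ hp)
      rw [edge_inj emb hpq] at hq
      exact ⟨i, hq⟩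
    · have h1 : (A.out σ).card ≤ (out' σ).card := by
        have h2 : A.out σ ⊆ (out' σ).image (edge emb) := by
          intro e he
          obtain ⟨i, -, q, -, hpq⟩ := (mem_Gr R emb).mp (hE _ he)
          exact Finset.mem_image.mpr ⟨q, (hmem q).mpr (hpq ▸ he), hpq⟩
        exact (Finset.card_le_card h2).trans Finset.card_image_le
      have h2 : ((A.out σ).card : ℝ) ≤ (out' σ).card := by exact_mod_cast h1
      have h3 : (Fintype.card (Vx μ N K) : ℝ) ≤ maxMatching (Gr R emb y) := by
        exact_mod_cast card_le_maxMatching R emb y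
      have h4 : (Fintype.card (Vx μ N K) : ℝ) ≤ 2 * 5 ^ K * ∏ l ∈ Finset.range K, (μ l : ℝ) := by
        exact_mod_cast card_Vx_le μ N hN K
      have h5 : (0 : ℝ) < 5 ^ K := by positivity
      have h6 : (1 : ℝ) / (4 * 5 ^ K) ≤ 1 := by
        rw [div_le_one (by positivity)]
        have : (1 : ℝ) ≤ 5 ^ K := one_le_pow₀ (by norm_num)
        linarith
      have h7 : (1 - 1 / (4 * 5 ^ K)) * (Fintype.card (Vx μ N K) : ℝ) ≤
          (1 - 1 / (4 * 5 ^ K)) * (maxMatching (Gr R emb y) : ℝ) :=
        mul_le_mul_of_nonneg_left h3 (by linarith)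
      have h8 : 1 / (4 * 5 ^ K) * (Fintype.card (Vx μ N K) : ℝ) ≤
          1 / 2 * ∏ l ∈ Finset.range K, (μ l : ℝ) := by
        calc 1 / (4 * 5 ^ K) * (Fintype.card (Vx μ N K) : ℝ) ≤
            1 / (4 * 5 ^ K) * (2 * 5 ^ K * ∏ l ∈ Finset.range K, (μ l : ℝ)) :=
              mul_le_mul_of_nonneg_left h4 (by positivity)
          _ = 1 / 2 * ∏ l ∈ Finset.range K, (μ l : ℝ) := by field_simp; norm_num
      linarith
  have hp : 13 / 20 ≤ Ex (K := K) (fun _ _ => 1 / (Fintype.card (Inst t μ K) : ℝ))
      (fun y => if Suc y (run (proto R emb A (List.finRange K)) A.init y) then 1 else 0) := by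
    rw [Ex_uniform (fun y => Suc y (run (proto R emb A (List.finRange K)) A.init y))]
    rw [le_div_iff₀ (by exact_mod_cast Fintype.card_pos)]
    refine h.trans ?_
    have : (Finset.univ.filter Q).card ≤ (Finset.univ.filter fun y =>
        Suc y (run (proto R emb A (List.finRange K)) A.init y)).card := by
      refine Finset.card_le_card fun y hy => ?_
      have hy' := hQ y (Finset.mem_filter.mp hy).2
      refine Finset.mem_filter.mpr ⟨Finset.mem_univ _, ?_⟩
      rw [run_proto]
      exact hy'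
    exact_mod_cast this
  have hg := good_proto R emb A (List.finRange K) (by simp)
  rw [List.length_finRange] at hg
  have h1 := comm_bound R (proto R emb A (List.finRange K)) hg
    (proto_lt R emb A (List.finRange K)) A.init out' Suc hSuc hp
  rw [length_proto, List.length_finRange] at h1
  refine h1.trans (mul_le_mul_of_nonneg_left ?_ (cB_nonneg K))
  have h2 : Real.log (Fintype.card (Fin s → Bool)) ≤ s := by
    rw [Fintype.card_fun, Fintype.card_bool, Fintype.card_fin]
    push_cast
    rw [Real.log_pow]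
    have h6 : Real.log 2 ≤ 1 := by
      have := Real.log_two_lt_d9; linarith
    calc (s : ℝ) * Real.log 2 ≤ s * 1 := mul_le_mul_of_nonneg_left h6 (by positivity)
      _ = s := mul_one _
  push_cast
  exact mul_le_mul_of_nonneg_left h2 (by positivity)

/-- Averaging over the inputs. -/
lemma averaging {Ω Al : Type} [Fintype Ω] [Nonempty Ω] (P : PMF Al) (E : Ω → Set Al)
    (hE : ∀ A : Al, ∀ F : Finset Ω, (∀ y ∈ F, A ∈ E y) →
      (F.card : ℝ) < 13 / 20 * Fintype.card Ω) :
    ∃ y, P.toOuterMeasure (E y) < 2 / 3 := by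
  classical
  by_contra hcon
  push Not at hcon
  have hc : (0 : ℝ) < Fintype.card Ω := by exact_mod_cast Fintype.card_pos
  have h1 : (Fintype.card Ω : ENNReal) * (2 / 3) ≤ ∑ y : Ω, P.toOuterMeasure (E y) := by
    calc (Fintype.card Ω : ENNReal) * (2 / 3) = ∑ _y : Ω, (2 / 3 : ENNReal) := by
          rw [Finset.sum_const, Finset.card_univ, nsmul_eq_mul]
      _ ≤ _ := Finset.sum_le_sum fun y _ => hcon y
  have h2 : ∑ y : Ω, P.toOuterMeasure (E y) =
      ∑' A, P A * ((Finset.univ.filter fun y => A ∈ E y).card : ENNReal) := by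
    simp_rw [PMF.toOuterMeasure_apply]
    rw [← Summable.tsum_finsetSum (fun _ _ => ENNReal.summable)]
    refine tsum_congr fun A => ?_
    rw [Finset.card_filter, Nat.cast_sum, Finset.mul_sum]
    refine Finset.sum_congr rfl fun y _ => ?_
    by_cases h : A ∈ E y <;> simp [h]
  have h3 : ∑' A, P A * ((Finset.univ.filter fun y => A ∈ E y).card : ENNReal) ≤
      ∑' A, P A * ENNReal.ofReal (13 / 20 * Fintype.card Ω) := by
    refine ENNReal.tsum_le_tsum fun A => mul_le_mul_right ?_ _
    rw [← ENNReal.ofReal_natCast]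
    exact ENNReal.ofReal_le_ofReal
      (hE A _ fun y hy => (Finset.mem_filter.mp hy).2).le
  rw [ENNReal.tsum_mul_right, PMF.tsum_coe, one_mul] at h3
  rw [h2] at h1
  have h4 := h1.trans h3
  have h5 : (Fintype.card Ω : ENNReal) * (2 / 3) =
      ENNReal.ofReal (Fintype.card Ω * (2 / 3)) := by
    rw [ENNReal.ofReal_mul (by positivity), ENNReal.ofReal_natCast,
      ENNReal.ofReal_div_of_pos (by norm_num)]
    norm_num
  rw [h5, ENNReal.ofReal_le_ofReal_iff (by positivity)] at h4
  linarith

theorem multiPass : ∀ k : ℕ, 1 ≤ k → ∀ (C : ℝ) (c : ℕ), ∃ n₀ : ℕ, ∀ n ≥ n₀,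
    ∀ s : ℕ, (s : ℝ) ≤ C * n * Real.log n ^ c → ∀ P : PMF (StreamAlg k n s),
      ∃ (G : SimpleGraph (Fin n)) (l : List (Sym2 (Fin n))), IsStreamOf G l ∧
        P.toOuterMeasure {A | Succeeds (1 / (4 * 5 ^ k)) G l A} < 2 / 3 := by
  intro k hk C c
  obtain ⟨K, rfl⟩ : ∃ K, k = K + 1 := ⟨k - 1, by omega⟩
  set C' : ℝ := 25600 * ((K : ℝ) + 1) ^ 2 * (K + 2) * 5 ^ (K + 1) * |C| with hC'
  obtain ⟨n₀, hn₀⟩ := exists_params K C' c
  refine ⟨n₀, fun n hn s hs P => ?_⟩
  obtain ⟨t, μ, N, L, ht, hμ, hN, ⟨R⟩, hL, htL, hCL, hn1, hn2⟩ := hn₀ n hn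
  have : ∀ k, NeZero (t k) := fun k => ⟨(ht k).ne'⟩
  have : ∀ k, NeZero (μ k) := fun k => ⟨(hμ k).ne'⟩
  have hcard : Fintype.card (Vx μ N (K + 1) ⊕ Vx μ N (K + 1)) ≤ Fintype.card (Fin n) := by
    rw [Fintype.card_sum, Fintype.card_fin]; omega
  obtain ⟨emb⟩ := Function.Embedding.nonempty_of_card_le hcard
  obtain ⟨y, hy⟩ := averaging (Ω := Fin (K + 1 + 1) → Inst t μ (K + 1)) P
    (fun y => {A | Succeeds (1 / (4 * 5 ^ (K + 1))) (Gr R emb y) (str R emb y) A})
    (by
      intro A F hF
      by_contra hcon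
      push Not at hcon
      classical
      have h1 := det_bound ht hμ hN R emb A (fun y => y ∈ F) (fun y hy => hF y hy) (by
        rw [Finset.filter_mem_eq_inter, Finset.univ_inter]
        exact hcon)
      have hρ : (0 : ℝ) < ∏ l ∈ Finset.range (K + 1), (μ l : ℝ) :=
        Finset.prod_pos fun l _ => by exact_mod_cast hμ l
      have h2 := cB_le (t := t) (μ := μ) (K + 1) L hL htL
      set ρ := ∏ l ∈ Finset.range (K + 1), (μ l : ℝ) with hρdef
      have h3 : (3 : ℝ) / 80 ≤ 120 * ((K + 1 : ℕ) : ℝ) / (L * ρ) *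
          (((K + 1 : ℕ) : ℝ) * (((K + 1 : ℕ) : ℝ) + 1) * s) :=
        h1.trans (mul_le_mul_of_nonneg_right h2 (by positivity))
      have h4 : (n : ℝ) ≤ 8 * 5 ^ (K + 1) * ρ := by
        have h5 : (Fintype.card (Vx μ N (K + 1)) : ℝ) ≤ 2 * 5 ^ (K + 1) * ρ := by
          rw [hρdef]
          exact_mod_cast card_Vx_le μ N hN (K + 1)
        have h6 : (n : ℝ) ≤ 4 * Fintype.card (Vx μ N (K + 1)) := by exact_mod_cast hn2.le
        linarith
      have hlog : 0 ≤ Real.log n := Real.log_natCast_nonneg n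
      have h7 : (s : ℝ) ≤ |C| * (8 * 5 ^ (K + 1) * ρ) * Real.log n ^ c := by
        calc (s : ℝ) ≤ C * n * Real.log n ^ c := hs
          _ ≤ |C| * n * Real.log n ^ c := by
            apply mul_le_mul_of_nonneg_right _ (by positivity)
            exact mul_le_mul_of_nonneg_right (le_abs_self C) (by positivity)
          _ ≤ _ := by gcongr
      have h8 : (3 : ℝ) / 80 ≤ 120 * ((K + 1 : ℕ) : ℝ) / (L * ρ) *
          (((K + 1 : ℕ) : ℝ) * (((K + 1 : ℕ) : ℝ) + 1) *
            (|C| * (8 * 5 ^ (K + 1) * ρ) * Real.log n ^ c)) := by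
        refine h3.trans ?_
        gcongr
      have h9 : 120 * ((K + 1 : ℕ) : ℝ) / (L * ρ) *
          (((K + 1 : ℕ) : ℝ) * (((K + 1 : ℕ) : ℝ) + 1) *
            (|C| * (8 * 5 ^ (K + 1) * ρ) * Real.log n ^ c)) =
          3 / 80 * (C' * Real.log n ^ c) / L := by
        rw [hC']
        push_cast
        field_simp
        ring
      rw [h9, le_div_iff₀ hL] at h8
      linarith)
  exact ⟨Gr R emb y, str R emb y, isStreamOf_str R emb y, hy⟩

end Pool.Agent.Hhelper71.Stream
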